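import Pool.Agent.H577.UQ.Cplx

set_option autoImplicit false

/-! # The main theorem, symmetric form -/

namespace Pool.Agent.H577.UQ

open Filter NumberField IsDedekindDomain Pool.Agent.W7.FH

/-- the curve at a point with coordinates in `K`, after an embedding -/
lemma aeval_embed {K L : Type} [Field K] [Field L] (f : K →+* L) (G : MvPolynomial (Fin 3) ℤ)
    (t : Fin 3 → K) (h : MvPolynomial.aeval t G = 0) :
    MvPolynomial.aeval (fun i => f (t i)) G = 0 := by
  have h1 := MvPolynomial.hom_eval₂ G (algebraMap ℤ K) f t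
  have h2 : f.comp (algebraMap ℤ K) = algebraMap ℤ L := RingHom.ext_int _ _
  rw [h2] at h1
  rw [MvPolynomial.aeval_def] at h ⊢
  rw [h, map_zero] at h1
  exact h1.symm

lemma Sm_embed {K L : Type} [Field K] [Field L] (f : K →+* L) (t : Fin 3 → K) (i : Fin 3) :
    Sm (fun i => f (t i)) i = f (Sm t i) := by
  unfold Sm
  rw [map_add]

theorem main (G : MvPolynomial (Fin 3) ℤ) (D : ℕ) (hG : G.IsHomogeneous D) (hG0 : G ≠ 0) :
    ∃ M : ℕ, 0 < M ∧ ∀ n > M, Nat.Coprime n M →
      ∀ (K : Type) [Field K] [NumberField K], Module.finrank ℚ K = 2 →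
      ∀ t : Fin 3 → K, (∀ i, t i ≠ 0) → (t 0) ^ n + (t 1) ^ n + (t 2) ^ n = 0 →
      MvPolynomial.aeval t G = 0 →
      t 0 + t 1 + t 2 = 0 ∧ (t 0) ^ 2 + t 0 * t 1 + (t 1) ^ 2 = 0 := by
  classical
  obtain ⟨Γ, P, e, hP2, hP6, hglob⟩ := global G D hG hG0
  -- the real places
  choose k R C hR hC hcurve using curve_cplx G D hG hG0
  set E : Finset ℝ := Finset.univ.biUnion fun i => rootAbs (R i) with hE
  have hEpos : ∀ e ∈ E, 0 < e := by
    intro e he
    rw [hE, Finset.mem_biUnion] at he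
    obtain ⟨i, -, hi⟩ := he
    exact rootAbs_pos (hR i) hi
  obtain ⟨δ, hδ, hδ1, hreal⟩ := real_case hEpos Γ
  have hclose : ∀ᶠ n : ℕ in atTop, ∀ i : Fin 3, ∀ (t : Fin 3 → ℝ) (o l : Fin 3),
      (∀ j, t j ≠ 0) → Sm t i ≠ 0 → MvPolynomial.aeval t G = 0 →
      RP n (fun j => |t j|) (fun j => |Sm t j|) o l i →
      RP.mu (fun j => |t j|) o i ≤ 1 - δ →
      ∃ e ∈ rootAbs (R i), |(RP.mu (fun j => |t j|) o i / e) ^ n - 1| ≤ 1 / 10 := by
    rw [eventually_all]
    intro i
    exact real_close (hR i) (hC i) (hcurve i) hδ hδ1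
  obtain ⟨N, hN⟩ := (hreal.and (hclose.and (cplx_case G D hG hG0 Γ))).exists_forall_of_atTop
  refine ⟨P ^ (N + e + 1), by positivity, fun n hn hco K _ _ hK t ht hF hz => ?_⟩
  have hne : N + e + 1 < n := (Nat.lt_pow_self (by omega : 1 < P)).trans hn
  have hcoP : Nat.Coprime n P := (Nat.coprime_pow_right_iff (by omega) _ _).1 hco
  have hco6 : Nat.Coprime n 6 := Nat.Coprime.coprime_dvd_right hP6 hcoP
  have hodd : Odd n := by
    apply odd_of_big (d := 2) (by norm_num)
    exact prime_gt_three hco6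
  obtain ⟨r, H, hH, hr, hU⟩ := hglob n (by omega) hcoP K hK t ht hF hz
  obtain ⟨hreal', hclose', hcplx'⟩ := hN n (by omega)
  suffices hreq : ∀ i j, r i = r j from
    unit_case hK (by omega) hodd (ht 0) (ht 1) (ht 2) hF (hU hreq)
  have hFi : ∀ i, (t (i + 1)) ^ n + (t (i + 2)) ^ n + (t i) ^ n = 0 := by
    intro i
    fin_cases i
    · change (t 1) ^ n + (t 2) ^ n + (t 0) ^ n = 0
      linear_combination hF
    · change (t 2) ^ n + (t 0) ^ n + (t 1) ^ n = 0
      linear_combination hF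
    · change (t 0) ^ n + (t 1) ^ n + (t 2) ^ n = 0
      exact hF
  have hS : ∀ i, Sm t i ≠ 0 := fun i => add_ne_zero_of_fermat hodd (ht i) (hFi i)
  -- the two embeddings
  have hcard : (Finset.univ : Finset (K →ₐ[ℚ] ℂ)).card = 2 := by
    rw [Finset.card_univ, AlgHom.card, hK]
  obtain ⟨σ, τ, hστ, huniv⟩ := Finset.card_eq_two.1 hcard
  have hNm : ∀ x : K, ((Algebra.norm ℚ x : ℚ) : ℂ) = σ x * τ x := by
    intro x
    have := Algebra.norm_eq_prod_embeddings ℚ ℂ x
    rw [huniv, Finset.prod_pair hστ] at this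
    exact this
  have hNabs : ∀ x : K, ((|Algebra.norm ℚ x| : ℚ) : ℝ) = ‖σ x‖ * ‖τ x‖ := by
    intro x
    rw [← norm_mul, ← hNm]
    simp
  let cj : ℂ →ₐ[ℚ] ℂ := (Complex.conjAe.toAlgHom).restrictScalars ℚ
  have hcj : ∀ z, cj z = (starRingEnd ℂ) z := fun z => rfl
  have hmem : ∀ ρ : K →ₐ[ℚ] ℂ, ρ = σ ∨ ρ = τ := by
    intro ρ
    have : ρ ∈ (Finset.univ : Finset (K →ₐ[ℚ] ℂ)) := Finset.mem_univ _
    rw [huniv, Finset.mem_insert, Finset.mem_singleton] at this
    exact this
  rcases hmem (cj.comp σ) with hσ | hσ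
  · -- `σ` is real
    rcases hmem (cj.comp τ) with hτ | hτ
    · exfalso
      apply hστ
      ext x
      have h1 : (starRingEnd ℂ) (τ x) = σ x := by
        rw [← hcj, ← AlgHom.comp_apply, hτ]
      have h2 : (starRingEnd ℂ) (σ x) = σ x := by
        rw [← hcj, ← AlgHom.comp_apply, hσ]
      have h3 : (starRingEnd ℂ) ((starRingEnd ℂ) (τ x)) = τ x := Complex.conj_conj _
      rw [← h3, h1, h2]
    · have hσr : ComplexEmbedding.IsReal (σ : K →+* ℂ) := by
        rw [ComplexEmbedding.isReal_iff]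
        ext x
        have h2 : (starRingEnd ℂ) (σ x) = σ x := by
          rw [← hcj, ← AlgHom.comp_apply, hσ]
        exact h2
      have hτr : ComplexEmbedding.IsReal (τ : K →+* ℂ) := by
        rw [ComplexEmbedding.isReal_iff]
        ext x
        have h2 : (starRingEnd ℂ) (τ x) = τ x := by
          rw [← hcj, ← AlgHom.comp_apply, hτ]
        exact h2
      set f : K →+* ℝ := hσr.embedding with hf
      set g : K →+* ℝ := hτr.embedding with hg
      have hfn : ∀ x, ‖σ x‖ = |f x| := by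
        intro x
        have h2 : ((f x : ℝ) : ℂ) = σ x := ComplexEmbedding.IsReal.coe_embedding_apply hσr x
        rw [← h2, Complex.norm_real, Real.norm_eq_abs]
      have hgn : ∀ x, ‖τ x‖ = |g x| := by
        intro x
        have h2 : ((g x : ℝ) : ℂ) = τ x := ComplexEmbedding.IsReal.coe_embedding_apply hτr x
        rw [← h2, Complex.norm_real, Real.norm_eq_abs]
      have hplace : ∀ f : K →+* ℝ, ∃ o l m : Fin 3,
          RP n (fun i => |f (t i)|) (fun i => |Sm (fun i => f (t i)) i|) o l m ∧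
          (RP.mu (fun i => |f (t i)|) o m ≤ 1 - δ →
            ∃ e ∈ E, |(RP.mu (fun i => |f (t i)|) o m / e) ^ n - 1| ≤ 1 / 10) := by
        intro f
        have ht' : ∀ i, f (t i) ≠ 0 := fun i => (map_ne_zero f).2 (ht i)
        have hF' : f (t 0) ^ n + f (t 1) ^ n + f (t 2) ^ n = 0 := by
          rw [← map_pow, ← map_pow, ← map_pow, ← map_add, ← map_add, hF, map_zero]
        obtain ⟨o, l, m, hRP⟩ := real_place (t := fun i => f (t i)) hodd ht' hF'
        refine ⟨o, l, m, hRP, fun hμ => ?_⟩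
        obtain ⟨e, he, he1⟩ := hclose' m (fun i => f (t i)) o l ht' (by
          rw [Sm_embed]
          exact (map_ne_zero f).2 (hS m)) (aeval_embed f G t hz) hRP hμ
        exact ⟨e, by
          rw [hE, Finset.mem_biUnion]
          exact ⟨m, Finset.mem_univ _, he⟩, he1⟩
      obtain ⟨o1, l1, m1, hp1, hc1⟩ := hplace f
      obtain ⟨o2, l2, m2, hp2, hc2⟩ := hplace g
      refine hreal' _ _ o1 l1 m1 _ _ o2 l2 m2 r H ⟨hp1, hp2, hc1, hc2, hH, fun i => (hr i).1,
        fun i => (hr i).2.1, fun i => ?_⟩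
      have h1 := (hr i).2.2
      rw [hNabs, hfn, hgn] at h1
      change |Sm (fun i => f (t i)) i| * |Sm (fun i => g (t i)) i| * H = (r i : ℝ) ^ n
      rw [Sm_embed, Sm_embed]
      exact h1
  · -- complex conjugate embeddings
    have hτn : ∀ x, ‖τ x‖ = ‖σ x‖ := by
      intro x
      rw [← hσ, AlgHom.comp_apply, hcj, Complex.norm_conj]
    set f : K →+* ℂ := (σ : K →+* ℂ) with hf
    have hfσ : ∀ x, f x = σ x := fun x => rfl
    refine hcplx' hodd (fun i => f (t i)) (fun i => (map_ne_zero f).2 (ht i)) (fun i => ?_) ?_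
      (aeval_embed f G t hz) r H hH (fun i => (hr i).1) (fun i => (hr i).2.1) (fun i => ?_)
    · rw [Sm_embed]
      exact (map_ne_zero f).2 (hS i)
    · rw [← map_pow, ← map_pow, ← map_pow, ← map_add, ← map_add, hF, map_zero]
    · have h1 := (hr i).2.2
      rw [hNabs, hτn] at h1
      rw [Sm_embed, hfσ, sq]
      exact h1

end Pool.Agent.H577.UQ
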