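import Pool.Agent.H577.UQ.RealCase

set_option autoImplicit false

/-! # The curve at the infinite places -/

namespace Pool.Agent.H577.UQ

open Filter

/-- the curve near the line `t (i + 1) + t (i + 2) = 0`, at a complex point -/
lemma curve_cplx (G : MvPolynomial (Fin 3) ℤ) (D : ℕ) (hG : G.IsHomogeneous D) (hG0 : G ≠ 0)
    (i : Fin 3) : ∃ (k : ℕ) (R : Polynomial ℤ) (C : ℝ), R.coeff 0 ≠ 0 ∧ 0 ≤ C ∧
      ∀ s : Fin 3 → ℂ, MvPolynomial.aeval s G = 0 → s (i + 2) ≠ 0 → Sm s i ≠ 0 →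
        ‖Sm s i / s (i + 2)‖ ≤ 1 → ‖s i / s (i + 2)‖ ≤ 2 →
        ‖(s i / s (i + 2)) ^ k * R.eval₂ (Int.castRingHom ℂ) (s i / s (i + 2))‖ ≤
          C * ‖Sm s i / s (i + 2)‖ := by
  have hGi : (MvPolynomial.rename (fun j : Fin 3 => j - (i + 1)) G).IsHomogeneous D :=
    hG.rename_isHomogeneous
  have hGi0 : MvPolynomial.rename (fun j : Fin 3 => j - (i + 1)) G ≠ 0 :=
    fun h => hG0 (MvPolynomial.rename_injective _ (cyc_injective i) (by rw [h, map_zero]))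
  obtain ⟨m, k, W, R, hR, hloc⟩ := decomp hGi hGi0
  obtain ⟨C, hC0, hC⟩ := bound_eval₂ W
  refine ⟨k, R, C, hR, hC0, fun s hs hb hS h1 h2 => ?_⟩
  have h3 : MvPolynomial.aeval ![s (i + 1), s (i + 2), s i]
      (MvPolynomial.rename (fun j : Fin 3 => j - (i + 1)) G) = 0 := by
    rw [aeval_cyc]
    exact hs
  have h4 := aeval_div hGi hb h3
  have h5 : (s (i + 1) + s (i + 2)) / s (i + 2) = Sm s i / s (i + 2) := rfl
  rw [h5] at h4
  rw [eval_decomp hloc _ _ (div_ne_zero hS hb) h4, norm_neg, norm_mul]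
  exact mul_le_mul_of_nonneg_right (hC _ _ h1 h2) (norm_nonneg _)

/-- real solutions on the curve -/
lemma real_close {G : MvPolynomial (Fin 3) ℤ} {i : Fin 3} {k : ℕ} {R : Polynomial ℤ} {C : ℝ}
    (hR : R.coeff 0 ≠ 0) (hC : 0 ≤ C)
    (hcurve : ∀ s : Fin 3 → ℂ, MvPolynomial.aeval s G = 0 → s (i + 2) ≠ 0 → Sm s i ≠ 0 →
        ‖Sm s i / s (i + 2)‖ ≤ 1 → ‖s i / s (i + 2)‖ ≤ 2 →
        ‖(s i / s (i + 2)) ^ k * R.eval₂ (Int.castRingHom ℂ) (s i / s (i + 2))‖ ≤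
          C * ‖Sm s i / s (i + 2)‖) {δ : ℝ} (hδ : 0 < δ) (hδ1 : δ ≤ 1 / 10) :
    ∀ᶠ n : ℕ in atTop, ∀ (t : Fin 3 → ℝ) (o l : Fin 3), (∀ j, t j ≠ 0) → Sm t i ≠ 0 →
      MvPolynomial.aeval t G = 0 → RP n (fun j => |t j|) (fun j => |Sm t j|) o l i →
      RP.mu (fun j => |t j|) o i ≤ 1 - δ →
      ∃ e ∈ rootAbs R, |(RP.mu (fun j => |t j|) o i / e) ^ n - 1| ≤ 1 / 10 := by
  have hlim : Tendsto (fun n : ℕ => (1 - δ) ^ n) atTop (nhds 0) :=
    tendsto_pow_atTop_nhds_zero_of_lt_one (by linarith) (by linarith)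
  filter_upwards [close hR k (4 * C) (δ / 2) (1 / 20) (by linarith) (by linarith) (by norm_num)
    (by norm_num), eventually_ge_atTop 2, eventually_gt_atTop ⌈2 / δ⌉₊,
    hlim.eventually_lt_const (by norm_num : (0 : ℝ) < 1 / 50)] with n hclose hn2 hn3 hn4
    t o l ht hS hz h hμ
  have hn : 1 ≤ n := by omega
  have hnR : (0 : ℝ) < n := by exact_mod_cast hn
  have hn5 : 2 / δ < n := Nat.lt_of_ceil_lt hn3
  have ho := h.pos_o
  have hμ0 := h.mu_pos
  have hμ2 := h.mu_pow_le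
  have hXm := h.Xm
  obtain ⟨f1, f2, f3, f4, f5, f6, f7⟩ := h.facts hn
  obtain ⟨lam, h1, h2, h3, h4, h5⟩ := h.lam
  obtain ⟨b1, b2, b3⟩ := RP.one_sub_lam hn h2 h3 h4 hμ2
  set μ := RP.mu (fun j => |t j|) o i with hμd
  obtain ⟨g1, g2, g3, -⟩ := h
  have hlam : 1 / 2 ≤ lam := by
    have : lam ^ n ≤ lam := pow_le_of_le_one h2.le h3 (by omega)
    linarith
  -- the coordinate `t (i + 2)`
  obtain ⟨σ, hσ1, hσ2, hσ3⟩ : ∃ σ : ℝ, |t (i + 2)| = σ * |t o| ∧ lam ≤ σ ∧ σ ≤ 1 := by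
    have hne : i + 2 ≠ i := (f3f i).symm
    rcases fin3_cases g1 g2 g3 (i + 2) with h6 | h6 | h6
    · exact ⟨1, by rw [h6, one_mul], h3, le_rfl⟩
    · exact ⟨lam, by rw [h6]; exact h1, le_rfl, h3⟩
    · exact absurd h6 hne
  have hσ0 : 0 < σ := h2.trans_le hσ2
  have hto : 0 < |t o| := abs_pos.2 (ht _)
  have hμn1 : μ ^ n ≤ (1 - δ) ^ n := pow_le_pow_left₀ hμ0.le hμ n
  -- the point
  set s : Fin 3 → ℂ := fun j => (t j : ℂ) with hs
  have hsz : MvPolynomial.aeval s G = 0 := by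
    have h6 : MvPolynomial.aeval s G = ((MvPolynomial.aeval t G : ℝ) : ℂ) := by
      rw [MvPolynomial.aeval_def, MvPolynomial.aeval_def]
      have := MvPolynomial.hom_eval₂ G (algebraMap ℤ ℝ) Complex.ofRealHom t
      rw [Complex.ofRealHom_eq_coe] at this
      rw [this]
      congr 1
    rw [h6, hz, Complex.ofReal_zero]
  have hsne : ∀ j, s j ≠ 0 := fun j => by
    change ((t j : ℝ) : ℂ) ≠ 0
    exact_mod_cast ht j
  have hsS : Sm s i = ((Sm t i : ℝ) : ℂ) := by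
    unfold Sm
    rw [hs]
    push_cast
    rfl
  have e1 : ‖Sm s i / s (i + 2)‖ = |Sm t i| / |t (i + 2)| := by
    rw [norm_div, hsS, Complex.norm_real, Complex.norm_real, Real.norm_eq_abs, Real.norm_eq_abs]
  have e2 : ‖s i / s (i + 2)‖ = μ / σ := by
    rw [norm_div, Complex.norm_real, Complex.norm_real, Real.norm_eq_abs, Real.norm_eq_abs, hσ1,
      show |t i| = μ * |t o| from hXm]
    field_simp
  have e3 : |Sm t i| / |t (i + 2)| ≤ 4 * μ ^ n / n := by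
    rw [hσ1, div_le_iff₀ (by positivity)]
    calc |Sm t i| ≤ 2 * μ ^ n / n * |t o| := f4
      _ ≤ 4 * μ ^ n / n * (σ * |t o|) := by
        have h7 : 1 / 2 ≤ σ := hlam.trans hσ2
        have h8 : 4 * μ ^ n / n * (σ * |t o|) = (2 * μ ^ n / n * |t o|) * (2 * σ) := by ring
        rw [h8]
        apply le_mul_of_one_le_right (by positivity)
        linarith
  have hnge : (2 : ℝ) ≤ n := by exact_mod_cast hn2
  have e4 : 4 * μ ^ n / n ≤ 1 := by
    rw [div_le_one hnR]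
    linarith
  have e5 : μ ≤ μ / σ := by
    rw [le_div_iff₀ hσ0]
    nlinarith
  have e6 : μ / σ ≤ 1 - δ / 2 := by
    have h7 : 1 - 1 / n ≤ σ := by
      have h8 : 2 * μ ^ n / n ≤ 1 / n := by
        gcongr
        linarith
      linarith
    have h8 : 1 / (n : ℝ) ≤ δ / 2 := by
      rw [div_lt_iff₀ hδ] at hn5
      rw [div_le_iff₀ hnR]
      linarith
    rw [div_le_iff₀ hσ0]
    nlinarith
  obtain ⟨e, he, he1⟩ := hclose (s i / s (i + 2))
    (div_ne_zero (hsne _) (hsne _))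
    (by rw [e2]; exact e6) (by
      refine (hcurve s hsz (hsne _) (by
        rw [hsS]
        exact_mod_cast hS) (by rw [e1]; exact e3.trans e4) (by rw [e2]; linarith)).trans ?_
      rw [e1, e2]
      calc C * (|Sm t i| / |t (i + 2)|) ≤ C * (4 * μ ^ n / n) := by gcongr
        _ ≤ C * (4 * μ ^ n) := by
          gcongr
          exact div_le_self (by positivity) (by exact_mod_cast hn)
        _ ≤ C * (4 * (μ / σ) ^ n) := by gcongr
        _ = 4 * C * (μ / σ) ^ n := by ring)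
  refine ⟨e, he, ?_⟩
  have hep := rootAbs_pos hR he
  rw [e2] at he1
  have h6 : (μ / e) ^ n = (μ / σ / e) ^ n * σ ^ n := by
    rw [← mul_pow]
    congr 1
    field_simp
  have h7 : σ ^ n ≤ 1 := pow_le_one₀ hσ0.le hσ3
  have h8 : 49 / 50 ≤ σ ^ n := by
    have : lam ^ n ≤ σ ^ n := pow_le_pow_left₀ h2.le hσ2 n
    linarith
  rw [abs_le] at he1 ⊢
  rw [h6]
  have h9 : 19 / 20 * (49 / 50) ≤ (μ / σ / e) ^ n * σ ^ n :=
    mul_le_mul (by linarith) h8 (by norm_num) (by positivity)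
  have h10 : (μ / σ / e) ^ n * σ ^ n ≤ 21 / 20 * 1 :=
    mul_le_mul (by linarith) h7 (by positivity) (by norm_num)
  constructor <;> linarith

/-- expansion of a power -/
lemma pow_expand (x : ℂ) (n : ℕ) : ‖(1 + x) ^ n - 1 - n * x‖ ≤ (1 + ‖x‖) ^ n - 1 - n * ‖x‖ := by
  induction n with
  | zero => simp
  | succ n ih =>
    have h1 : (1 + x) ^ (n + 1) - 1 - ((n + 1 : ℕ) : ℂ) * x =
        (1 + x) * ((1 + x) ^ n - 1 - n * x) + n * x ^ 2 := by
      push_cast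
      ring
    have h2 : (1 + ‖x‖) ^ (n + 1) - 1 - ((n + 1 : ℕ) : ℝ) * ‖x‖ =
        (1 + ‖x‖) * ((1 + ‖x‖) ^ n - 1 - n * ‖x‖) + n * ‖x‖ ^ 2 := by
      push_cast
      ring
    rw [h1, h2]
    refine (norm_add_le _ _).trans ?_
    rw [norm_mul, norm_mul, norm_pow, Complex.norm_natCast]
    have h3 : ‖1 + x‖ ≤ 1 + ‖x‖ := by
      have := norm_add_le 1 x
      rwa [norm_one] at this
    have h4 := mul_le_mul h3 ih (norm_nonneg _) (by positivity)
    linarith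

lemma pow_expand' {x : ℂ} {n : ℕ} (h : n * ‖x‖ ≤ 1) : ‖(1 + x) ^ n - 1 - n * x‖ ≤ (n * ‖x‖) ^ 2 := by
  refine (pow_expand x n).trans ?_
  have h1 : (1 + ‖x‖) ^ n ≤ Real.exp (n * ‖x‖) := by
    rw [Real.exp_nat_mul]
    apply pow_le_pow_left₀ (by positivity)
    have := Real.add_one_le_exp ‖x‖
    linarith
  have h0 : 0 ≤ n * ‖x‖ := by positivity
  have h2 := Real.abs_exp_sub_one_sub_id_le (x := n * ‖x‖) (by rw [abs_of_nonneg h0]; exact h)
  have h3 := (abs_le.1 h2).2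
  linarith

end Pool.Agent.H577.UQ
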