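import Mathlib

set_option autoImplicit false

/-! # Polynomials which are very small at a point -/

namespace Pool.Agent.H577.UQ

open Polynomial Filter

/-- the absolute values of the complex roots -/
noncomputable def rootAbs (R : ℤ[X]) : Finset ℝ :=
  (R.map (Int.castRingHom ℂ)).roots.toFinset.image fun z => ‖z‖

lemma mapC_ne_zero {R : ℤ[X]} (hR : R.coeff 0 ≠ 0) : R.map (Int.castRingHom ℂ) ≠ 0 := by
  intro h
  have h1 := congrArg (fun Q : ℂ[X] => Q.coeff 0) h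
  simp only [Polynomial.coeff_map, Polynomial.coeff_zero, eq_intCast] at h1
  exact hR (by exact_mod_cast h1)

lemma rootAbs_pos {R : ℤ[X]} (hR : R.coeff 0 ≠ 0) {e : ℝ} (he : e ∈ rootAbs R) : 0 < e := by
  unfold rootAbs at he
  rw [Finset.mem_image] at he
  obtain ⟨z, hz, rfl⟩ := he
  rw [Multiset.mem_toFinset, Polynomial.mem_roots (mapC_ne_zero hR)] at hz
  rw [norm_pos_iff]
  rintro rfl
  rw [Polynomial.IsRoot.def, ← Polynomial.coeff_zero_eq_eval_zero, Polynomial.coeff_map,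
    eq_intCast] at hz
  exact hR (by exact_mod_cast hz)

/-- a number whose `n`-th power is not near one is not very near one -/
lemma far_of_pow {x η : ℝ} (hx : 0 ≤ x) (hη : 0 < η) (hη1 : η ≤ 1) {n : ℕ} (hn : 0 < n)
    (h : η < |x ^ n - 1|) : η / (2 * n) ≤ |x - 1| := by
  by_contra hcon
  push Not at hcon
  have hnR : (0 : ℝ) < n := by exact_mod_cast hn
  rw [abs_lt] at hcon
  have h1 : x ^ n - 1 ≤ η := by
    have h2 : x ≤ 1 + η / (2 * n) := by linarith
    have h3 : x ^ n ≤ (1 + η / (2 * n)) ^ n := pow_le_pow_left₀ hx h2 n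
    have h4 : (1 + η / (2 * n)) ^ n ≤ Real.exp (η / 2) := by
      have h5 : 1 + η / (2 * n) ≤ Real.exp (η / (2 * n)) := by
        have := Real.add_one_le_exp (η / (2 * n))
        linarith
      calc (1 + η / (2 * n)) ^ n ≤ Real.exp (η / (2 * n)) ^ n :=
            pow_le_pow_left₀ (by positivity) h5 n
        _ = Real.exp (η / 2) := by
            rw [← Real.exp_nat_mul]
            congr 1
            field_simp
    have h5 : Real.exp (η / 2) ≤ 1 + η := by
      have h6 := Real.abs_exp_sub_one_sub_id_le (x := η / 2) (by rw [abs_of_pos (by positivity)]; linarith)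
      have h7 := (abs_le.1 h6).2
      nlinarith
    linarith
  have h2 : -η ≤ x ^ n - 1 := by
    have h3 : 1 + (n : ℝ) * (x - 1) ≤ x ^ n := by
      have := one_add_mul_le_pow (a := x - 1) (by linarith) n
      simpa using this
    have h4 : -(η / 2) ≤ (n : ℝ) * (x - 1) := by
      have h5 : -(η / (2 * n)) ≤ x - 1 := hcon.1.le
      have h6 := mul_le_mul_of_nonneg_left h5 hnR.le
      have h7 : (n : ℝ) * (-(η / (2 * n))) = -(η / 2) := by
        field_simp
      rwa [h7] at h6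
    linarith
  rw [lt_abs] at h
  rcases h with h | h <;> linarith

lemma multiset_prod_ge {s : Multiset ℂ} {z : ℂ} {ε : ℝ} (hε : 0 ≤ ε)
    (h : ∀ ζ ∈ s, ε ≤ ‖z - ζ‖) : ε ^ (Multiset.card s) ≤ ‖(s.map fun ζ => z - ζ).prod‖ := by
  induction s using Multiset.induction_on with
  | empty => simp
  | cons a s ih =>
    rw [Multiset.map_cons, Multiset.prod_cons, Multiset.card_cons, norm_mul, pow_succ']
    have h1 := ih fun ζ hζ => h ζ (Multiset.mem_cons_of_mem hζ)
    exact mul_le_mul (h a (Multiset.mem_cons_self _ _)) h1 (by positivity) (norm_nonneg _)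

/-- if `z ^ k R(z)` is not larger than `C |z| ^ n`, then `|z| ^ n` is near `|ζ| ^ n` for a root
`ζ` of `R` -/
theorem close {R : ℤ[X]} (hR : R.coeff 0 ≠ 0) (k : ℕ) (C δ η : ℝ) (hδ : 0 < δ) (hδ1 : δ < 1)
    (hη : 0 < η) (hη1 : η ≤ 1) : ∀ᶠ n : ℕ in atTop, ∀ z : ℂ, z ≠ 0 → ‖z‖ ≤ 1 - δ →
      ‖z ^ k * R.eval₂ (Int.castRingHom ℂ) z‖ ≤ C * ‖z‖ ^ n →
      ∃ e ∈ rootAbs R, |(‖z‖ / e) ^ n - 1| ≤ η := by
  set Q := R.map (Int.castRingHom ℂ) with hQ
  have hQ0 : Q ≠ 0 := mapC_ne_zero hR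
  have hsplit : Q.Splits := IsAlgClosed.splits Q
  set d := Multiset.card Q.roots with hd
  have hlead : 0 < ‖Q.leadingCoeff‖ := norm_pos_iff.2 (Polynomial.leadingCoeff_ne_zero.2 hQ0)
  -- a lower bound for the roots
  obtain ⟨e0, he0, he1⟩ : ∃ e0 : ℝ, 0 < e0 ∧ ∀ e ∈ rootAbs R, e0 ≤ e := by
    rcases (rootAbs R).eq_empty_or_nonempty with h | h
    · exact ⟨1, one_pos, by rw [h]; simp⟩
    · exact ⟨(rootAbs R).min' h, rootAbs_pos hR (Finset.min'_mem _ _),
        fun e he => Finset.min'_le _ _ he⟩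
  set ρ : ℝ := 1 - δ with hρ
  have hρ0 : 0 < ρ := by linarith
  have hρ1 : ρ < 1 := by linarith
  have hlim : Tendsto (fun n : ℕ => (n : ℝ) ^ d * ρ ^ n) atTop (nhds 0) :=
    tendsto_pow_const_mul_const_pow_of_lt_one d hρ0.le hρ1
  set A : ℝ := ‖Q.leadingCoeff‖ * (e0 * η / 2) ^ d with hA
  have hA0 : 0 < A := by positivity
  have hlim2 : Tendsto (fun n : ℕ => (|C| / ρ ^ k) * ((n : ℝ) ^ d * ρ ^ n)) atTop (nhds 0) := by
    simpa using hlim.const_mul (|C| / ρ ^ k)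
  filter_upwards [hlim2.eventually_lt_const hA0, eventually_ge_atTop (k + 1)] with n h1 h2 z hz hz1
    hz2
  by_contra hcon
  push Not at hcon
  have hn0 : 0 < n := by omega
  have hnR : (0 : ℝ) < n := by exact_mod_cast hn0
  have hz0 : 0 < ‖z‖ := norm_pos_iff.2 hz
  have h3 : ‖R.eval₂ (Int.castRingHom ℂ) z‖ ≤ |C| * ρ ^ (n - k) := by
    rw [norm_mul, norm_pow] at hz2
    have h4 : ‖z‖ ^ n = ‖z‖ ^ k * ‖z‖ ^ (n - k) := by
      rw [← pow_add]
      congr 1
      omega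
    rw [h4] at hz2
    have h5 : ‖z‖ ^ k * ‖R.eval₂ (Int.castRingHom ℂ) z‖ ≤ ‖z‖ ^ k * (C * ‖z‖ ^ (n - k)) := by
      calc _ ≤ C * (‖z‖ ^ k * ‖z‖ ^ (n - k)) := hz2
        _ = _ := by ring
    have h6 := le_of_mul_le_mul_left h5 (by positivity)
    calc _ ≤ C * ‖z‖ ^ (n - k) := h6
      _ ≤ |C| * ‖z‖ ^ (n - k) := by
        gcongr
        exact le_abs_self C
      _ ≤ |C| * ρ ^ (n - k) := by gcongr
  have h4 : ∀ ζ ∈ Q.roots, e0 * η / (2 * n) ≤ ‖z - ζ‖ := by
    intro ζ hζ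
    have h5 : ‖ζ‖ ∈ rootAbs R := by
      unfold rootAbs
      rw [Finset.mem_image]
      exact ⟨ζ, Multiset.mem_toFinset.2 hζ, rfl⟩
    have h6 := hcon _ h5
    have h7 := he1 _ h5
    have h8 : 0 < ‖ζ‖ := he0.trans_le h7
    have h9 := far_of_pow (by positivity) hη hη1 hn0 h6
    have h10 : |‖z‖ / ‖ζ‖ - 1| = |‖z‖ - ‖ζ‖| / ‖ζ‖ := by
      rw [← abs_of_pos h8, ← abs_div, abs_of_pos h8]
      congr 1
      field_simp
    rw [h10, le_div_iff₀ h8] at h9
    calc e0 * η / (2 * n) = η / (2 * n) * e0 := by ring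
      _ ≤ η / (2 * n) * ‖ζ‖ := by gcongr
      _ ≤ |‖z‖ - ‖ζ‖| := h9
      _ ≤ ‖z - ζ‖ := abs_norm_sub_norm_le _ _
  have h5 := multiset_prod_ge (by positivity) h4
  have h6 : ‖R.eval₂ (Int.castRingHom ℂ) z‖ =
      ‖Q.leadingCoeff‖ * ‖(Q.roots.map fun ζ => z - ζ).prod‖ := by
    have h7 : R.eval₂ (Int.castRingHom ℂ) z = Q.eval z := by
      rw [hQ, Polynomial.eval_map]
    rw [h7, hsplit.eval_eq_prod_roots z, norm_mul]
  rw [h6] at h3
  have h7 : ‖Q.leadingCoeff‖ * (e0 * η / (2 * n)) ^ d ≤ |C| * ρ ^ (n - k) :=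
    (mul_le_mul_of_nonneg_left h5 hlead.le).trans h3
  have h8 : (e0 * η / (2 * n)) ^ d = (e0 * η / 2) ^ d / (n : ℝ) ^ d := by
    rw [← div_pow]
    congr 1
    field_simp
  rw [h8, ← mul_div_assoc, div_le_iff₀ (by positivity)] at h7
  have h9 : ρ ^ (n - k) = ρ ^ n / ρ ^ k := by
    rw [eq_div_iff (by positivity), ← pow_add]
    congr 1
    omega
  rw [h9] at h7
  have h10 : |C| * (ρ ^ n / ρ ^ k) * (n : ℝ) ^ d = |C| / ρ ^ k * ((n : ℝ) ^ d * ρ ^ n) := by
    ring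
  rw [h10] at h7
  exact absurd h1 (not_lt.2 h7)

/-- a power of `n` is not comparable to an exponential function -/
lemma sep {q A B : ℝ} (hq : 0 < q) (hA : 0 < A) {k : ℕ} (hk : 1 ≤ k) :
    ∀ᶠ n : ℕ in atTop, A * q ^ n ≤ (n : ℝ) ^ k → (n : ℝ) ^ k ≤ B * q ^ n → False := by
  rcases le_or_gt q 1 with h | h
  · filter_upwards [eventually_gt_atTop ⌈|B|⌉₊, eventually_ge_atTop 1] with n hn hn1 _ h2
    have h3 : (|B| : ℝ) < n := Nat.lt_of_ceil_lt hn
    have h4 : (n : ℝ) ≤ (n : ℝ) ^ k := by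
      apply le_self_pow₀
      · exact_mod_cast hn1
      · omega
    have h5 : B * q ^ n ≤ |B| := by
      calc B * q ^ n ≤ |B| * q ^ n := by
            gcongr
            exact le_abs_self B
        _ ≤ |B| * 1 := by
            gcongr
            exact pow_le_one₀ hq.le h
        _ = |B| := mul_one _
    linarith
  · have hlim : Tendsto (fun n : ℕ => (n : ℝ) ^ k / q ^ n) atTop (nhds 0) :=
      tendsto_pow_const_div_const_pow_of_one_lt k h
    filter_upwards [hlim.eventually_lt_const hA] with n hn h1 _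
    rw [div_lt_iff₀ (by positivity)] at hn
    linarith

/-- an exponential function is not bounded by a power of `n` -/
lemma grow {q A B : ℝ} (hq : 1 < q) (hA : 0 < A) (k : ℕ) :
    ∀ᶠ n : ℕ in atTop, A * q ^ n ≤ B * (n : ℝ) ^ k → False := by
  have hlim : Tendsto (fun n : ℕ => (n : ℝ) ^ k / q ^ n) atTop (nhds 0) :=
    tendsto_pow_const_div_const_pow_of_one_lt k hq
  have hlim2 : Tendsto (fun n : ℕ => B * ((n : ℝ) ^ k / q ^ n)) atTop (nhds 0) := by
    simpa using hlim.const_mul B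
  filter_upwards [hlim2.eventually_lt_const hA] with n hn h1
  have h2 : (0 : ℝ) < q ^ n := by positivity
  have h3 : B * ((n : ℝ) ^ k / q ^ n) * q ^ n < A * q ^ n := mul_lt_mul_of_pos_right hn h2
  have h4 : B * ((n : ℝ) ^ k / q ^ n) * q ^ n = B * (n : ℝ) ^ k := by
    field_simp
  linarith

end Pool.Agent.H577.UQ
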