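import Pool.Agent.H577.UQ.Arch

set_option autoImplicit false

/-! # One complex place -/

namespace Pool.Agent.H577.UQ

open Filter

/-- a complex solution with one sum of two coordinates small -/
lemma small_sum {n : ℕ} (hn : Odd n) {a b c : ℂ} (hb : b ≠ 0) (h : a ^ n + b ^ n + c ^ n = 0)
    (hw : n * ‖(a + b) / b‖ ≤ 1 / 2) :
    n * ‖(a + b) / b‖ / 2 ≤ ‖c / b‖ ^ n ∧ ‖c / b‖ ^ n ≤ 3 * (n * ‖(a + b) / b‖) / 2 := by
  set w := (a + b) / b with hwd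
  have h1 : (c / b) ^ n = (1 + -w) ^ n - 1 := by
    have h2 : 1 + -w = -(a / b) := by
      rw [hwd]
      field_simp
      ring
    rw [h2, hn.neg_pow, div_pow, div_pow]
    have : b ^ n ≠ 0 := pow_ne_zero _ hb
    field_simp
    linear_combination h
  have h2 : n * ‖-w‖ ≤ 1 := by
    rw [norm_neg]
    linarith
  have h3 := pow_expand' h2
  rw [norm_neg] at h3
  have h0 : 0 ≤ n * ‖w‖ := by positivity
  have h4 : (n * ‖w‖) ^ 2 ≤ n * ‖w‖ / 2 := by nlinarith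
  have h5 : ‖(n : ℂ) * -w‖ = n * ‖w‖ := by
    rw [norm_mul, norm_neg, Complex.norm_natCast]
  rw [← norm_pow, h1]
  have h6 : (1 + -w) ^ n - 1 = ((1 + -w) ^ n - 1 - n * -w) + n * -w := by ring
  have h7 := norm_add_le ((1 + -w) ^ n - 1 - n * -w) (n * -w)
  have h8 := norm_sub_norm_le (n * -w) (-((1 + -w) ^ n - 1 - n * -w))
  rw [norm_neg] at h8
  have h9 : (n : ℂ) * -w - -((1 + -w) ^ n - 1 - n * -w) = (1 + -w) ^ n - 1 := by ring
  rw [h9] at h8
  rw [← h6] at h7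
  constructor <;> linarith

/-- the complex case -/
theorem cplx_case (G : MvPolynomial (Fin 3) ℤ) (D : ℕ) (hG : G.IsHomogeneous D) (hG0 : G ≠ 0)
    (Γ : ℕ) : ∀ᶠ n : ℕ in atTop, Odd n → ∀ s : Fin 3 → ℂ, (∀ i, s i ≠ 0) → (∀ i, Sm s i ≠ 0) →
      s 0 ^ n + s 1 ^ n + s 2 ^ n = 0 → MvPolynomial.aeval s G = 0 →
      ∀ (r : Fin 3 → ℕ) (κ : ℝ), 0 < κ → (∀ i, 1 ≤ r i) → (∀ i, r i ≤ Γ) →
      (∀ i, ‖Sm s i‖ ^ 2 * κ = (r i : ℝ) ^ n) → ∀ i j, r i = r j := by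
  classical
  choose k R C hR hC hcurve using curve_cplx G D hG hG0
  set E : Finset ℝ := Finset.univ.biUnion fun i => rootAbs (R i) with hE
  have hEpos : ∀ e ∈ E, 0 < e := by
    intro e he
    rw [hE, Finset.mem_biUnion] at he
    obtain ⟨i, -, hi⟩ := he
    exact rootAbs_pos (hR i) hi
  set ψ : ℝ := Real.sqrt ((Γ : ℝ) / (Γ + 1)) with hψ
  have hψ2 : ψ ^ 2 = (Γ : ℝ) / (Γ + 1) := Real.sq_sqrt (by positivity)
  have hψ0 : 0 ≤ ψ := Real.sqrt_nonneg _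
  have hψ1 : ψ < 1 := by
    have h1 : ψ ^ 2 < 1 := by
      rw [hψ2, div_lt_one (by positivity)]
      linarith
    nlinarith
  set δ : ℝ := (1 - ψ) / 2 with hδ
  have hδ0 : 0 < δ := by linarith
  have hδ1 : δ < 1 := by linarith
  have hψδ : ψ < 1 - δ := by linarith
  have lim1 : Tendsto (fun n : ℕ => (n : ℝ) * ψ ^ n) atTop (nhds 0) :=
    tendsto_self_mul_const_pow_of_lt_one hψ0 hψ1
  have lim2 : Tendsto (fun n : ℕ => (n : ℝ) * (ψ / (1 - δ)) ^ n) atTop (nhds 0) :=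
    tendsto_self_mul_const_pow_of_lt_one (by positivity) ((div_lt_one (by linarith)).2 hψδ)
  have ev1 := (Filter.eventually_all_finset (Q2 E Γ)).2 fun q hq =>
    sep (q := q) (A := 9 / 100) (B := 5 / δ ^ 2) (Q2_pos hEpos hq) (by norm_num) (k := 2)
      (by norm_num)
  have ev2 : ∀ᶠ n : ℕ in atTop, ∀ i : Fin 3, ∀ z : ℂ, z ≠ 0 → ‖z‖ ≤ 1 - δ →
      ‖z ^ (k i) * (R i).eval₂ (Int.castRingHom ℂ) z‖ ≤ (2 * C i) * ‖z‖ ^ n →
      ∃ e ∈ rootAbs (R i), |(‖z‖ / e) ^ n - 1| ≤ 1 / 10 := by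
    rw [eventually_all]
    intro i
    exact close (hR i) (k i) (2 * C i) δ (1 / 10) hδ0 hδ1 (by norm_num) (by norm_num)
  filter_upwards [ev1, ev2, lim1.eventually_lt_const (by norm_num : (0 : ℝ) < 1 / 16),
    lim2.eventually_lt_const (by norm_num : (0 : ℝ) < 1 / 12), eventually_ge_atTop 1] with
    n e1 e2 e3 e4 hn hodd s hs hS hF hz r κ hκ hr1 hr2 hrel
  have hnR : (1 : ℝ) ≤ n := by exact_mod_cast hn
  have hnR0 : (0 : ℝ) < n := by linarith
  have hψn0 : 0 ≤ ψ ^ n := by positivity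
  have e3' : ψ ^ n ≤ 1 / 16 := by nlinarith
  by_contra hcon
  push Not at hcon
  obtain ⟨i0, j0, hij⟩ := hcon
  -- the smallest of the numbers
  obtain ⟨m, hm⟩ := Finite.exists_min r
  obtain ⟨y, hy⟩ : ∃ y, r m < r y := by
    by_contra h1
    push Not at h1
    exact hij (le_antisymm ((h1 i0).trans (hm j0)) ((h1 j0).trans (hm i0)))
  -- the largest absolute value
  obtain ⟨p, hp⟩ := Finite.exists_max fun i => ‖s i‖
  set M : ℝ := ‖s p‖ with hM
  have hM0 : 0 < M := norm_pos_iff.2 (hs p)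
  have hSM : ∀ i, ‖Sm s i‖ ≤ 2 * M := by
    intro i
    unfold Sm
    refine (norm_add_le _ _).trans ?_
    have h1 := hp (i + 1)
    have h2 := hp (i + 2)
    linarith
  have cross : ∀ i j, (r i : ℝ) ^ n * ‖Sm s j‖ ^ 2 = (r j : ℝ) ^ n * ‖Sm s i‖ ^ 2 := by
    intro i j
    rw [← hrel i, ← hrel j]
    ring
  have hrpos : ∀ i, (0 : ℝ) < r i := fun i => by exact_mod_cast hr1 i
  have hsmall : ‖Sm s m‖ ≤ 2 * M * ψ ^ n := by
    have h1 : (r m : ℝ) / r y ≤ ψ ^ 2 := by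
      rw [hψ2, div_le_div_iff₀ (hrpos y) (by positivity)]
      have h2 : (r m : ℝ) + 1 ≤ r y := by exact_mod_cast hy
      have h3 : (r m : ℝ) ≤ Γ := by exact_mod_cast hr2 m
      nlinarith
    have h2 : ‖Sm s m‖ ^ 2 = ‖Sm s y‖ ^ 2 * ((r m : ℝ) / r y) ^ n := by
      rw [div_pow]
      have := hrpos y
      field_simp
      linear_combination cross y m
    have h3 : ‖Sm s m‖ ^ 2 ≤ (2 * M * ψ ^ n) ^ 2 := by
      rw [h2]
      calc ‖Sm s y‖ ^ 2 * ((r m : ℝ) / r y) ^ n ≤ (2 * M) ^ 2 * (ψ ^ 2) ^ n := by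
            have h4 := hSM y
            have := hrpos y
            gcongr
        _ = (2 * M * ψ ^ n) ^ 2 := by
            rw [mul_pow (2 * M), ← pow_mul, ← pow_mul, mul_comm 2 n]
    exact le_of_pow_le_pow_left₀ two_ne_zero (by positivity) h3
  have hFm : (s (m + 1)) ^ n + (s (m + 2)) ^ n + (s m) ^ n = 0 := by
    clear_value M
    revert hF
    clear * -
    revert m
    intro m h
    fin_cases m
    · change (s 1) ^ n + (s 2) ^ n + (s 0) ^ n = 0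
      linear_combination h
    · change (s 2) ^ n + (s 0) ^ n + (s 1) ^ n = 0
      linear_combination h
    · exact h
  have hmp : p = m ∨ p = m + 1 ∨ p = m + 2 := fin3_cases (f3e m) (f3g m) (f3f m) p
  set a := s (m + 1) with ha
  set b := s (m + 2) with hb
  set c := s m with hc
  have hSm : Sm s m = a + b := rfl
  have hb0 : b ≠ 0 := hs _
  have hβ : 0 < ‖b‖ := norm_pos_iff.2 hb0
  have haM : ‖a‖ ≤ ‖b‖ + 2 * M * ψ ^ n := by
    have h1 : a = (a + b) - b := by ring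
    rw [h1]
    refine (norm_sub_le _ _).trans ?_
    rw [← hSm]
    linarith
  have hMb : M ≤ 4 * ‖b‖ := by
    have h1 : M ≤ 2 * max ‖a‖ ‖b‖ := by
      have h2 : ‖a‖ ≤ max ‖a‖ ‖b‖ := le_max_left _ _
      have h3 : ‖b‖ ≤ max ‖a‖ ‖b‖ := le_max_right _ _
      have h4 : 0 ≤ max ‖a‖ ‖b‖ := (norm_nonneg _).trans h2
      rcases hmp with h5 | h5 | h5
      · rw [hM, h5, ← hc]
        have h6 : c ^ n = -(a ^ n + b ^ n) := by linear_combination hFm
        have h7 : ‖c‖ ^ n ≤ (2 * max ‖a‖ ‖b‖) ^ n := by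
          rw [← norm_pow, h6, norm_neg]
          refine (norm_add_le _ _).trans ?_
          rw [norm_pow, norm_pow, mul_pow]
          have h8 : ‖a‖ ^ n ≤ max ‖a‖ ‖b‖ ^ n := by gcongr
          have h9 : ‖b‖ ^ n ≤ max ‖a‖ ‖b‖ ^ n := by gcongr
          have h10 : (2 : ℝ) ≤ 2 ^ n := by
            calc (2 : ℝ) = 2 ^ 1 := by norm_num
              _ ≤ 2 ^ n := pow_le_pow_right₀ (by norm_num) hn
          have h11 : 0 ≤ max ‖a‖ ‖b‖ ^ n := by positivity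
          nlinarith
        exact le_of_pow_le_pow_left₀ (by omega) (by positivity) h7
      · rw [hM, h5, ← ha]
        linarith
      · rw [hM, h5, ← hb]
        linarith
    have h2 : max ‖a‖ ‖b‖ ≤ ‖b‖ + 2 * M * ψ ^ n := by
      apply max_le haM
      have : 0 ≤ 2 * M * ψ ^ n := by positivity
      linarith
    nlinarith
  set w : ℝ := ‖(a + b) / b‖ with hw
  have hw1 : w ≤ 8 * ψ ^ n := by
    rw [hw, norm_div, div_le_iff₀ hβ, ← hSm]
    nlinarith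
  have hnw : n * w ≤ 1 / 2 := by
    calc n * w ≤ n * (8 * ψ ^ n) := by gcongr
      _ = 8 * (n * ψ ^ n) := by ring
      _ ≤ 1 / 2 := by linarith
  have hw2 : w ≤ 1 := by nlinarith [norm_nonneg ((a + b) / b)]
  obtain ⟨z1, z2⟩ := small_sum hodd hb0 hFm hnw
  rw [← hw] at z1 z2
  set z := c / b with hzd
  have hz0 : z ≠ 0 := div_ne_zero (hs _) hb0
  have hzp : 0 < ‖z‖ := norm_pos_iff.2 hz0
  have hz1 : ‖z‖ ≤ 1 - δ := by
    apply le_of_pow_le_pow_left₀ (n := n) (by omega) (by linarith)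
    refine z2.trans ?_
    have h1 : 3 * (n * w) / 2 ≤ 12 * (n * ψ ^ n) := by
      have : n * w ≤ n * (8 * ψ ^ n) := by gcongr
      linarith
    refine h1.trans ?_
    have h2 : (0 : ℝ) < (1 - δ) ^ n := by
      have : 0 < 1 - δ := by linarith
      positivity
    have h3 : n * (ψ / (1 - δ)) ^ n = n * ψ ^ n / (1 - δ) ^ n := by
      rw [div_pow, mul_div_assoc]
    rw [h3, div_lt_iff₀ h2] at e4
    linarith
  obtain ⟨e, he, he1⟩ := e2 m z hz0 hz1 (by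
    refine (hcurve m s hz hb0 (hS m) ?_ ?_).trans ?_
    · exact hw2
    · change ‖z‖ ≤ 2
      linarith
    · change C m * w ≤ _
      have h1 : w ≤ n * w := le_mul_of_one_le_left (norm_nonneg _) hnR
      have h2 : w ≤ 2 * ‖z‖ ^ n := by linarith
      calc C m * w ≤ C m * (2 * ‖z‖ ^ n) := mul_le_mul_of_nonneg_left h2 (hC m)
        _ = _ := by ring)
  have heE : e ∈ E := by
    rw [hE, Finset.mem_biUnion]
    exact ⟨m, Finset.mem_univ _, he⟩
  have hep := hEpos _ heE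
  obtain ⟨a1, b1⟩ := pow_bounds hep he1
  -- compare with `S (m + 1)`
  have hS1 : Sm s (m + 1) = b * (1 + z) := by
    unfold Sm
    rw [f3a, f3b, ← hb, ← hc, hzd]
    field_simp
  have hS1a : ‖Sm s (m + 1)‖ ≤ 2 * ‖b‖ := by
    rw [hS1, norm_mul, mul_comm]
    have : ‖1 + z‖ ≤ 2 := by
      refine (norm_add_le _ _).trans ?_
      rw [norm_one]
      linarith
    gcongr
  have hS1b : δ * ‖b‖ ≤ ‖Sm s (m + 1)‖ := by
    rw [hS1, norm_mul, mul_comm]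
    have : δ ≤ ‖1 + z‖ := by
      have h1 := norm_sub_norm_le (1 : ℂ) (-z)
      rw [sub_neg_eq_add, norm_neg, norm_one] at h1
      linarith
    gcongr
  have hS0 : ‖Sm s m‖ = w * ‖b‖ := by
    rw [hSm, hw, norm_div, div_mul_cancel₀ _ hβ.ne']
  have hcr := cross m (m + 1)
  rw [hS0] at hcr
  have hq := mem_Q2 heE heE (mem_ratios (hr1 (m + 1)) (hr2 (m + 1)) (hr1 m) (hr2 m))
  have hrm := hrpos m
  have hrm1 := hrpos (m + 1)
  set x : ℝ := ((r (m + 1) : ℝ) / r m) ^ n with hx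
  have hx0 : 0 < x := by positivity
  have hcr2 : ‖Sm s (m + 1)‖ ^ 2 = x * (w * ‖b‖) ^ 2 := by
    have hpm : (0 : ℝ) < (r m : ℝ) ^ n := by positivity
    rw [hx, div_pow, div_mul_eq_mul_div, eq_div_iff hpm.ne', mul_comm]
    exact hcr
  have hw0 : 0 ≤ w := norm_nonneg _
  refine e1 _ hq ?_ ?_
  · rw [mul_pow, mul_pow, ← hx]
    -- `x w ^ 2 ≤ 4`
    have h1 : x * w ^ 2 ≤ 4 := by
      have h2 : ‖Sm s (m + 1)‖ ^ 2 ≤ (2 * ‖b‖) ^ 2 := by gcongr
      rw [hcr2] at h2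
      have h3 : (x * w ^ 2) * ‖b‖ ^ 2 ≤ 4 * ‖b‖ ^ 2 := by linarith
      exact le_of_mul_le_mul_right h3 (by positivity)
    have h2 : ‖z‖ ^ n * ‖z‖ ^ n ≤ (3 * (n * w) / 2) * (3 * (n * w) / 2) :=
      mul_le_mul z2 z2 (by positivity) (by positivity)
    have h3 : (9 / 10 * e ^ n) * (9 / 10 * e ^ n) ≤ ‖z‖ ^ n * ‖z‖ ^ n :=
      mul_le_mul a1 a1 (by positivity) (by positivity)
    have h4 : (9 / 10 * e ^ n) * (9 / 10 * e ^ n) * x ≤
        (3 * (n * w) / 2) * (3 * (n * w) / 2) * x :=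
      mul_le_mul_of_nonneg_right (h3.trans h2) hx0.le
    have h5 : (3 * (n * w) / 2) * (3 * (n * w) / 2) * x = 9 / 4 * (n : ℝ) ^ 2 * (x * w ^ 2) := by
      ring
    have h6 : 9 / 4 * (n : ℝ) ^ 2 * (x * w ^ 2) ≤ 9 / 4 * (n : ℝ) ^ 2 * 4 := by gcongr
    have h7 : (9 / 10 * e ^ n) * (9 / 10 * e ^ n) * x = 81 / 100 * (e ^ n * e ^ n * x) := by ring
    rw [h7] at h4
    linarith
  · rw [mul_pow, mul_pow, ← hx]
    have h1 : δ ^ 2 ≤ x * w ^ 2 := by
      have h2 : (δ * ‖b‖) ^ 2 ≤ ‖Sm s (m + 1)‖ ^ 2 := by gcongr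
      rw [hcr2] at h2
      have h3 : δ ^ 2 * ‖b‖ ^ 2 ≤ (x * w ^ 2) * ‖b‖ ^ 2 := by linarith
      exact le_of_mul_le_mul_right h3 (by positivity)
    have h2 : (n * w / 2) * (n * w / 2) ≤ ‖z‖ ^ n * ‖z‖ ^ n :=
      mul_le_mul z1 z1 (by positivity) (by positivity)
    have h3 : ‖z‖ ^ n * ‖z‖ ^ n ≤ (11 / 10 * e ^ n) * (11 / 10 * e ^ n) :=
      mul_le_mul b1 b1 (by positivity) (by positivity)
    have h4 : (n * w / 2) * (n * w / 2) * x ≤ (11 / 10 * e ^ n) * (11 / 10 * e ^ n) * x :=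
      mul_le_mul_of_nonneg_right (h2.trans h3) hx0.le
    have h5 : (n * w / 2) * (n * w / 2) * x = 1 / 4 * (n : ℝ) ^ 2 * (x * w ^ 2) := by ring
    have h6 : 1 / 4 * (n : ℝ) ^ 2 * δ ^ 2 ≤ 1 / 4 * (n : ℝ) ^ 2 * (x * w ^ 2) := by gcongr
    have h7 : (11 / 10 * e ^ n) * (11 / 10 * e ^ n) * x = 121 / 100 * (e ^ n * e ^ n * x) := by ring
    rw [h5, h7] at h4
    rw [div_mul_eq_mul_div, le_div_iff₀ (by positivity)]
    have h8 : 0 ≤ e ^ n * e ^ n * x := by positivity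
    linarith

end Pool.Agent.H577.UQ
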