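import Pool.Agent.H577.GS.Avoid

set_option autoImplicit false

/-! # A plane curve over `ℤ` near the line `a + b = 0`, at all places of all number fields -/

namespace Pool.Agent.H577.UQ

open Polynomial

/-- the curve in the coordinates `u = a + b`, `c`, where `b = 1` -/
noncomputable def loc (G : MvPolynomial (Fin 3) ℤ) : (ℤ[X])[X] :=
  MvPolynomial.eval₂ (Polynomial.C.comp Polynomial.C) ![Polynomial.X - 1, 1, Polynomial.C Polynomial.X] G

lemma eval_loc {L : Type} [Field L] (G : MvPolynomial (Fin 3) ℤ) (u c : L) :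
    (loc G).eval₂ (Polynomial.eval₂RingHom (Int.castRingHom L) c) u =
      MvPolynomial.aeval ![u - 1, 1, c] G := by
  unfold loc
  have h1 : (Polynomial.eval₂RingHom (Polynomial.eval₂RingHom (Int.castRingHom L) c) u)
      (MvPolynomial.eval₂ (Polynomial.C.comp Polynomial.C)
    ![Polynomial.X - 1, 1, Polynomial.C Polynomial.X] G) = MvPolynomial.aeval ![u - 1, 1, c] G := by
    rw [MvPolynomial.hom_eval₂, MvPolynomial.aeval_def]
    congr 1
    · exact RingHom.ext_int _ _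
    · funext i
      fin_cases i <;> simp
  exact h1

lemma loc_ne_zero {G : MvPolynomial (Fin 3) ℤ} {D : ℕ} (hG : G.IsHomogeneous D)
    (hG0 : G ≠ 0) : loc G ≠ 0 := by
  intro h
  have hinj : Function.Injective (Int.castRingHom ℚ) := Int.cast_injective
  have h1 : MvPolynomial.map (Int.castRingHom ℚ) G = 0 := by
    apply Pool.Agent.H577.GS.eq_zero_of_eval (hG.map _)
    intro x z
    have h2 := eval_loc G (x + 1) z
    rw [h, Polynomial.eval₂_zero, add_sub_cancel_right] at h2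
    rw [MvPolynomial.eval_map, h2, MvPolynomial.aeval_def]
    rfl
  exact hG0 (MvPolynomial.map_injective _ hinj (by rw [h1, map_zero]))

/-- the decomposition of the local equation -/
lemma decomp {G : MvPolynomial (Fin 3) ℤ} {D : ℕ} (hG : G.IsHomogeneous D) (hG0 : G ≠ 0) :
    ∃ (m k : ℕ) (W : (ℤ[X])[X]) (R : ℤ[X]), R.coeff 0 ≠ 0 ∧
      loc G = Polynomial.X ^ m * (W * Polynomial.X + Polynomial.C (Polynomial.X ^ k * R)) := by
  obtain ⟨m, Q, hQ, hQ0⟩ := Pool.Agent.H577.GS.exists_factor (loc G) (loc_ne_zero hG hG0)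
  obtain ⟨k, R, hR, hR0⟩ := Pool.Agent.H577.GS.exists_factor (Q.coeff 0) hQ0
  exact ⟨m, k, Q.divX, R, hR0, by rw [← hR, Polynomial.divX_mul_X_add, hQ]⟩

lemma eval_decomp {L : Type} [Field L] {G : MvPolynomial (Fin 3) ℤ} {m k : ℕ} {W : (ℤ[X])[X]}
    {R : ℤ[X]} (h : loc G = Polynomial.X ^ m *
      (W * Polynomial.X + Polynomial.C (Polynomial.X ^ k * R))) (u c : L) (hu : u ≠ 0)
    (hz : MvPolynomial.aeval ![u - 1, 1, c] G = 0) :
    c ^ k * R.eval₂ (Int.castRingHom L) c =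
      - (W.eval₂ (Polynomial.eval₂RingHom (Int.castRingHom L) c) u * u) := by
  rw [← eval_loc, h] at hz
  simp only [Polynomial.eval₂_mul, Polynomial.eval₂_pow, Polynomial.eval₂_X,
    Polynomial.eval₂_add, Polynomial.eval₂_C, Polynomial.coe_eval₂RingHom] at hz
  have h1 := (mul_eq_zero.1 hz).resolve_left (pow_ne_zero _ hu)
  linear_combination h1

section cplx

lemma bound_eval (P : ℤ[X]) : ∃ C : ℝ, 0 ≤ C ∧ ∀ c : ℂ, ‖c‖ ≤ 2 →
    ‖P.eval₂ (Int.castRingHom ℂ) c‖ ≤ C := by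
  have h1 : ContinuousOn (fun c : ℂ => P.eval₂ (Int.castRingHom ℂ) c) (Metric.closedBall 0 2) := by
    have h2 : (fun c : ℂ => P.eval₂ (Int.castRingHom ℂ) c) =
        fun c => (P.map (Int.castRingHom ℂ)).eval c := by
      funext c
      rw [Polynomial.eval_map]
    rw [h2]
    exact (P.map (Int.castRingHom ℂ)).continuous.continuousOn
  obtain ⟨C, hC⟩ := (isCompact_closedBall (0 : ℂ) 2).exists_bound_of_continuousOn h1
  refine ⟨max C 0, le_max_right _ _, fun c hc => (hC c ?_).trans (le_max_left _ _)⟩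
  simpa using hc

lemma bound_eval₂ (W : (ℤ[X])[X]) : ∃ C : ℝ, 0 ≤ C ∧ ∀ u c : ℂ, ‖u‖ ≤ 1 → ‖c‖ ≤ 2 →
    ‖W.eval₂ (Polynomial.eval₂RingHom (Int.castRingHom ℂ) c) u‖ ≤ C := by
  choose F hF0 hF using bound_eval
  refine ⟨∑ i ∈ Finset.range (W.natDegree + 1), F (W.coeff i),
    Finset.sum_nonneg fun i _ => hF0 _, fun u c hu hc => ?_⟩
  rw [Polynomial.eval₂_eq_sum_range]
  refine (norm_sum_le _ _).trans (Finset.sum_le_sum fun i _ => ?_)
  rw [norm_mul, norm_pow]
  calc _ ≤ F (W.coeff i) * 1 ^ i := by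
        gcongr
        · exact hF0 _
        · exact hF _ c hc
    _ = F (W.coeff i) := by simp

end cplx

end Pool.Agent.H577.UQ
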