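import Pool.Agent.H577.UQ.Main

set_option autoImplicit false

/-! # Curves of bounded degree and height -/

namespace Pool.Agent.H577.UQ

open NumberField Pool.Agent.W7.FH

/-- the substitution `Z ↦ - Z` -/
noncomputable def flip : MvPolynomial (Fin 3) ℤ →ₐ[ℤ] MvPolynomial (Fin 3) ℤ :=
  MvPolynomial.aeval ![MvPolynomial.X 0, MvPolynomial.X 1, - MvPolynomial.X 2]

lemma flip_flip (G : MvPolynomial (Fin 3) ℤ) : flip (flip G) = G := by
  have h : flip.comp flip = AlgHom.id ℤ _ := by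
    apply MvPolynomial.algHom_ext
    intro i
    fin_cases i <;> simp [flip]
  exact congrArg (fun f : MvPolynomial (Fin 3) ℤ →ₐ[ℤ] MvPolynomial (Fin 3) ℤ => f G) h

lemma flip_ne_zero {G : MvPolynomial (Fin 3) ℤ} (h : G ≠ 0) : flip G ≠ 0 := by
  intro h1
  apply h
  rw [← flip_flip G, h1, map_zero]

lemma flip_homogeneous {G : MvPolynomial (Fin 3) ℤ} {D : ℕ} (h : G.IsHomogeneous D) :
    (flip G).IsHomogeneous D := by
  have h0 : ∀ i : Fin 3, ((![MvPolynomial.X 0, MvPolynomial.X 1, - MvPolynomial.X 2] :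
      Fin 3 → MvPolynomial (Fin 3) ℤ) i).IsHomogeneous 1 := by
    intro i
    fin_cases i
    · simpa using MvPolynomial.isHomogeneous_X ℤ (0 : Fin 3)
    · simpa using MvPolynomial.isHomogeneous_X ℤ (1 : Fin 3)
    · simpa using (MvPolynomial.isHomogeneous_X ℤ (2 : Fin 3)).neg
  have h1 := MvPolynomial.IsHomogeneous.aeval h _ h0
  rw [one_mul] at h1
  exact h1

lemma aeval_flip {K : Type} [Field K] (G : MvPolynomial (Fin 3) ℤ) (x y z : K) :
    MvPolynomial.aeval ![x, y, -z] (flip G) = MvPolynomial.aeval ![x, y, z] G := by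
  have h : (MvPolynomial.aeval ![x, y, -z] : MvPolynomial (Fin 3) ℤ →ₐ[ℤ] K).comp flip =
      MvPolynomial.aeval ![x, y, z] := by
    apply MvPolynomial.algHom_ext
    intro i
    fin_cases i <;> simp [flip]
  exact congrArg (fun f : MvPolynomial (Fin 3) ℤ →ₐ[ℤ] K => f G) h

/-- a fixed curve -/
theorem fixed (G : MvPolynomial (Fin 3) ℤ) (D : ℕ) (hG : G.IsHomogeneous D) (hG0 : G ≠ 0) :
    ∃ M : ℕ, 0 < M ∧ ∀ n > M, Nat.Coprime n M →
      ∀ (K : Type) [Field K] [NumberField K], Module.finrank ℚ K = 2 →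
      ∀ x y z : K, x ≠ 0 → y ≠ 0 → z ≠ 0 → x ^ n + y ^ n = z ^ n →
      MvPolynomial.aeval ![x, y, z] G = 0 →
      ∃ ζ : K, IsPrimitiveRoot ζ 6 ∧ y = x * ζ ^ 2 ∧ z = x * ζ := by
  obtain ⟨M, hM, h⟩ := main (flip G) D (flip_homogeneous hG) (flip_ne_zero hG0)
  refine ⟨2 * M, by omega, fun n hn hco K _ _ hK x y z hx hy hz hF hGz => ?_⟩
  have hodd : Odd n := by
    rw [← Nat.not_even_iff_odd]
    intro h1
    have h2 : 2 ∣ Nat.gcd n (2 * M) := Nat.dvd_gcd h1.two_dvd (dvd_mul_right _ _)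
    rw [hco] at h2
    omega
  have h1 := h n (by omega) (Nat.Coprime.coprime_mul_left_right hco) K hK ![x, y, -z] (by
      intro i
      fin_cases i
      · exact hx
      · exact hy
      · exact neg_ne_zero.2 hz) (by
      change x ^ n + y ^ n + (-z) ^ n = 0
      rw [hodd.neg_pow, hF, add_neg_cancel]) (by rw [aeval_flip]; exact hGz)
  exact trivial_form hx h1.1 h1.2

/-- finitely many forms -/
lemma finite_forms (D H : ℕ) :
    {G : MvPolynomial (Fin 3) ℤ | G.IsHomogeneous D ∧ ∀ m, |G.coeff m| ≤ H}.Finite := by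
  classical
  set A : Finset (Fin 3 →₀ ℕ) := Finset.finsuppAntidiag Finset.univ D with hA
  have hfin : Finite (A → Set.Icc (-(H : ℤ)) H) := inferInstance
  let f : {G : MvPolynomial (Fin 3) ℤ | G.IsHomogeneous D ∧ ∀ m, |G.coeff m| ≤ H} →
      (A → Set.Icc (-(H : ℤ)) H) := fun G a => ⟨G.1.coeff a.1, abs_le.1 (G.2.2 a.1)⟩
  have hf : Function.Injective f := by
    intro G G' h
    apply Subtype.ext
    apply MvPolynomial.ext
    intro m
    by_cases hm : m ∈ A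
    · exact congrArg Subtype.val (congrFun h ⟨m, hm⟩)
    · have hdeg : ∀ Q : MvPolynomial (Fin 3) ℤ, Q.IsHomogeneous D → Q.coeff m = 0 := by
        intro Q hQ
        by_contra h0
        apply hm
        rw [hA, Finset.mem_finsuppAntidiag]
        refine ⟨?_, Finset.subset_univ _⟩
        have h1 := hQ.degree_eq_sum_deg_support (MvPolynomial.mem_support_iff.2 h0)
        rw [h1]
        exact (Finset.sum_subset (Finset.subset_univ _) (fun i _ hi => by simpa using hi)).symm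
      rw [hdeg _ G.2.1, hdeg _ G'.2.1]
  exact Finite.of_injective f hf

/-- all curves of bounded degree and height -/
theorem bounded (D H : ℕ) : ∃ M : ℕ, 0 < M ∧ ∀ n > M, Nat.Coprime n M →
      ∀ (K : Type) [Field K] [NumberField K], Module.finrank ℚ K = 2 →
      ∀ x y z : K, x ≠ 0 → y ≠ 0 → z ≠ 0 → x ^ n + y ^ n = z ^ n →
      (∃ ζ : K, IsPrimitiveRoot ζ 6 ∧ y = x * ζ ^ 2 ∧ z = x * ζ) ∨
      ∀ (d : ℕ) (G : MvPolynomial (Fin 3) ℤ), d ≤ D → G.IsHomogeneous d →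
        (∀ m, |G.coeff m| ≤ H) → MvPolynomial.aeval ![x, y, z] G = 0 → G = 0 := by
  classical
  have key : ∀ x : (Σ _ : ℕ, MvPolynomial (Fin 3) ℤ), ∃ M : ℕ, 0 < M ∧
      (x.2.IsHomogeneous x.1 → x.2 ≠ 0 → ∀ n > M, Nat.Coprime n M →
      ∀ (K : Type) [Field K] [NumberField K], Module.finrank ℚ K = 2 →
      ∀ a b c : K, a ≠ 0 → b ≠ 0 → c ≠ 0 → a ^ n + b ^ n = c ^ n →
      MvPolynomial.aeval ![a, b, c] x.2 = 0 →
      ∃ ζ : K, IsPrimitiveRoot ζ 6 ∧ b = a * ζ ^ 2 ∧ c = a * ζ) := by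
    intro x
    by_cases h : x.2.IsHomogeneous x.1 ∧ x.2 ≠ 0
    · obtain ⟨M, hM, h1⟩ := fixed x.2 x.1 h.1 h.2
      exact ⟨M, hM, fun _ _ => h1⟩
    · exact ⟨1, one_pos, fun h1 h2 => absurd ⟨h1, h2⟩ h⟩
  choose M hM0 hM using key
  set A : Finset (Σ _ : ℕ, MvPolynomial (Fin 3) ℤ) :=
    (Finset.range (D + 1)).sigma fun d => (finite_forms d H).toFinset with hA
  refine ⟨∏ x ∈ A, M x, Finset.prod_pos fun x _ => hM0 x,
    fun n hn hco K _ _ hK x y z hx hy hz hF => ?_⟩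
  by_contra hcon
  push Not at hcon
  obtain ⟨h1, d, G, hd, hG, hGH, hGz, hG0⟩ := hcon
  have hmem : (⟨d, G⟩ : Σ _ : ℕ, MvPolynomial (Fin 3) ℤ) ∈ A := by
    rw [hA, Finset.mem_sigma]
    exact ⟨Finset.mem_range.2 (Nat.lt_succ_of_le hd), (Set.Finite.mem_toFinset _).2 ⟨hG, hGH⟩⟩
  have hdvd : M ⟨d, G⟩ ∣ ∏ x ∈ A, M x := Finset.dvd_prod_of_mem _ hmem
  have hle : M ⟨d, G⟩ ≤ ∏ x ∈ A, M x :=
    Nat.le_of_dvd (Finset.prod_pos fun x _ => hM0 x) hdvd
  obtain ⟨ζ, hζ, e1, e2⟩ := hM ⟨d, G⟩ hG hG0 n (by omega)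
    (Nat.Coprime.coprime_dvd_right hdvd hco) K hK x y z hx hy hz hF hGz
  exact h1 ζ hζ e1 e2

end Pool.Agent.H577.UQ
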