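import Pool.Agent.H577.UQ.Curve
import Pool.Graph.R_seed8.W7.FH.Qm

set_option autoImplicit false

/-! # Finite places: the sums of two coordinates of a solution -/

namespace Pool.Agent.H577.UQ

open NumberField IsDedekindDomain Pool.Agent.W7.FH

variable {K : Type} [Field K] [NumberField K]

/-- a solution near the line `a + b = 0` -/
theorem core (v : FinitePlace K) {m : ℕ} (hm2 : 2 ≤ m)
    (hm : ∀ p : ℕ, p.Prime → p ∣ m → Module.finrank ℚ K + 1 < p) {a b c : K} (hb : b ≠ 0)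
    (h : a ^ m + b ^ m + c ^ m = 0) (hlt : v (a + b) < mx v a b c) :
    v a = v b ∧ mx v a b c = v b ∧ v (c / b) < 1 ∧ v ((a + b) / b) < 1 ∧
      v (c / b) ^ m = v (m : K) * v ((a + b) / b) := by
  obtain ⟨n, hn⟩ : ∃ n, n = Module.finrank ℚ K := ⟨_, rfl⟩
  rw [← hn] at hm
  have hnpos : 0 < n := by rw [hn]; exact Module.finrank_pos
  have hodd : Odd m := odd_of_big hnpos hm
  have hvb : 0 < v b := FinitePlace.pos_iff.mpr hb
  unfold mx at hlt ⊢
  have h1 : v c ≤ max (v a) (v b) := by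
    have h2 : c ^ m = -(a ^ m + b ^ m) := by linear_combination h
    have h3 : v c ^ m ≤ (max (v a) (v b)) ^ m := by
      rw [← map_pow, h2, map_neg_eq_map]
      refine (FinitePlace.add_le v _ _).trans (max_le ?_ ?_)
      · rw [map_pow]
        exact pow_le_pow_left₀ (apply_nonneg _ _) (le_max_left _ _) _
      · rw [map_pow]
        exact pow_le_pow_left₀ (apply_nonneg _ _) (le_max_right _ _) _
    exact le_of_pow_le_pow_left₀ (by omega) (le_max_of_le_left (apply_nonneg _ _)) h3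
  rw [max_eq_left h1] at hlt ⊢
  have h2 : v a = v b := by
    rcases lt_trichotomy (v a) (v b) with h3 | h3 | h3
    · exfalso
      rw [add_comm, add_eq_of_lt v h3, max_eq_right h3.le] at hlt
      exact lt_irrefl _ hlt
    · exact h3
    · exfalso
      rw [add_eq_of_lt v h3, max_eq_left h3.le] at hlt
      exact lt_irrefl _ hlt
  rw [h2, max_self] at hlt ⊢
  obtain ⟨t, ht⟩ : ∃ t : K, t = -(a + b) / b := ⟨_, rfl⟩
  have hvt : v t = v (a + b) / v b := by
    rw [ht, map_div₀, map_neg_eq_map]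
  have hvt1 : v t < 1 := by rw [hvt, div_lt_one hvb]; exact hlt
  have hvt0 : 0 ≤ v t := apply_nonneg _ _
  have h3 : (1 + t) ^ m - 1 = (c / b) ^ m := by
    have h4 : 1 + t = -(a / b) := by rw [ht]; field_simp; ring
    rw [h4, hodd.neg_pow, div_pow, div_pow, eq_div_iff (pow_ne_zero m hb), sub_mul, neg_mul,
      div_mul_cancel₀ _ (pow_ne_zero m hb)]
    linear_combination -h
  have hm0 : (m : K) ≠ 0 := by exact_mod_cast (by omega : m ≠ 0)
  have hvm0 : 0 < v (m : K) := FinitePlace.pos_iff.mpr hm0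
  have h5 : ∀ p : ℕ, p.Prime → p ∣ m → v t ^ (p - 1) < v (p : K) := by
    intro p hp hpm
    have hpR : (1 : ℝ) < p := by exact_mod_cast hp.one_lt
    have hnp := hm p hp hpm
    rcases (natCast_le_one v p).lt_or_eq with h6 | h6
    · have h7 := nrm_ge v hp h6
      have h8 : v t ≤ ((p : ℕ) : ℝ)⁻¹ := (le_inv_nrm v hvt1).trans (by
        apply inv_anti₀ (by positivity)
        exact_mod_cast h7)
      calc v t ^ (p - 1) ≤ (((p : ℕ) : ℝ)⁻¹) ^ (p - 1) := pow_le_pow_left₀ hvt0 h8 _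
        _ = ((p : ℝ) ^ (p - 1))⁻¹ := by rw [inv_pow]
        _ < ((p : ℝ) ^ n)⁻¹ := by
            apply inv_strictAnti₀ (by positivity)
            exact pow_lt_pow_right₀ hpR (by omega)
        _ ≤ v (p : K) := by rw [hn]; exact prime_ge v hp.pos
    · rw [h6]
      exact pow_lt_one₀ hvt0 hvt1 (by have := hp.two_le; omega)
  have h6 := one_add_pow_gen v m t hvt1 (by omega) h5
  rw [h3, map_pow] at h6
  have hρ : v (c / b) < 1 := by
    by_contra hcon
    push Not at hcon
    have h7 := one_le_pow₀ (n := m) hcon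
    rw [h6] at h7
    have h8 : v (m : K) * v t ≤ 1 * v t := mul_le_mul_of_nonneg_right (natCast_le_one v m) hvt0
    linarith
  have h7 : v t = v ((a + b) / b) := by
    rw [hvt, map_div₀]
  rw [h7] at h6 hvt1
  exact ⟨rfl, rfl, hρ, hvt1, h6⟩

/-- the value group of a finite place -/
lemma value_eq (v : FinitePlace K) {t : K} (ht : t ≠ 0) (h : v t < 1) :
    ∃ j : ℕ, 1 ≤ j ∧ v t * (nrm v : ℝ) ^ j = 1 := by
  have hN := one_lt_nrm' v
  have h1 := FinitePlace.norm_embedding' v.maximalIdeal t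
  rw [FinitePlace.norm_embedding_eq] at h1
  have hv : v.maximalIdeal.valuation K t ≠ 0 := (Valuation.ne_zero_iff _).mpr ht
  rw [WithZeroMulInt.toNNReal_neg_apply _ hv] at h1
  set k : ℤ := Multiplicative.toAdd (WithZero.unzero hv) with hk
  have h2 : v t = ((nrm v : ℕ) : ℝ) ^ k := by
    rw [h1]
    push_cast
    rfl
  rw [h2] at h
  have hk0 : k < 0 := by
    by_contra hcon
    push Not at hcon
    exact absurd h (not_lt.mpr (one_le_zpow₀ hN.le hcon))
  refine ⟨k.natAbs, by omega, ?_⟩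
  rw [h2]
  have h3 : (k.natAbs : ℤ) = -k := by omega
  rw [← zpow_natCast, h3, ← zpow_add₀ (by positivity)]
  simp

lemma intCast_le_one (v : FinitePlace K) (m : ℤ) : v (m : K) ≤ 1 := by
  have h := integer_le_one v (m : 𝓞 K)
  simpa using h

lemma sum_le_one (v : FinitePlace K) {ι : Type} (s : Finset ι) (f : ι → K)
    (h : ∀ i ∈ s, v (f i) ≤ 1) : v (∑ i ∈ s, f i) ≤ 1 := by
  classical
  induction s using Finset.induction_on with
  | empty => simp
  | insert i s hi ih =>
    rw [Finset.sum_insert hi]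
    refine (FinitePlace.add_le v _ _).trans (max_le (h i (Finset.mem_insert_self _ _)) ?_)
    exact ih fun j hj => h j (Finset.mem_insert_of_mem hj)

lemma eval_le_one (v : FinitePlace K) (P : Polynomial ℤ) (c : K) (hc : v c ≤ 1) :
    v (P.eval₂ (Int.castRingHom K) c) ≤ 1 := by
  rw [Polynomial.eval₂_eq_sum_range]
  refine sum_le_one v _ _ fun i _ => ?_
  rw [map_mul, map_pow]
  exact mul_le_one₀ (intCast_le_one v _) (pow_nonneg (apply_nonneg _ _) _)
    (pow_le_one₀ (apply_nonneg _ _) hc)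

lemma eval₂_le_one (v : FinitePlace K) (W : Polynomial (Polynomial ℤ)) (u c : K) (hu : v u ≤ 1)
    (hc : v c ≤ 1) : v (W.eval₂ (Polynomial.eval₂RingHom (Int.castRingHom K) c) u) ≤ 1 := by
  rw [Polynomial.eval₂_eq_sum_range]
  refine sum_le_one v _ _ fun i _ => ?_
  rw [map_mul, map_pow]
  exact mul_le_one₀ (eval_le_one v _ _ hc) (pow_nonneg (apply_nonneg _ _) _)
    (pow_le_one₀ (apply_nonneg _ _) hu)

lemma aeval_smul {L : Type} [Field L] {G : MvPolynomial (Fin 3) ℤ} {D : ℕ}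
    (hG : G.IsHomogeneous D) (t x y z : L) :
    MvPolynomial.aeval ![t * x, t * y, t * z] G = t ^ D * MvPolynomial.aeval ![x, y, z] G := by
  have h1 := Pool.Agent.H577.GS.eval_smul (hG.map (Int.castRingHom L)) t x y z
  rw [MvPolynomial.eval_map, MvPolynomial.eval_map] at h1
  exact h1

lemma aeval_div {L : Type} [Field L] {G : MvPolynomial (Fin 3) ℤ} {D : ℕ}
    (hG : G.IsHomogeneous D) {a b c : L} (hb : b ≠ 0) (h : MvPolynomial.aeval ![a, b, c] G = 0) :
    MvPolynomial.aeval ![(a + b) / b - 1, 1, c / b] G = 0 := by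
  have h1 := aeval_smul hG b (a / b) 1 (c / b)
  rw [mul_div_cancel₀ _ hb, mul_one, mul_div_cancel₀ _ hb, h] at h1
  have h2 : (a + b) / b - 1 = a / b := by
    field_simp
    ring
  rw [h2]
  exact (mul_eq_zero.1 h1.symm).resolve_left (pow_ne_zero _ hb)

/-- on the curve, `c / b` is not too small at the finite places -/
lemma curve_bound (v : FinitePlace K) {G : MvPolynomial (Fin 3) ℤ} {m k : ℕ}
    {W : Polynomial (Polynomial ℤ)} {R : Polynomial ℤ} (hloc : loc G = Polynomial.X ^ m *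
      (W * Polynomial.X + Polynomial.C (Polynomial.X ^ k * R))) {u c : K} (hu : u ≠ 0) (hc : c ≠ 0)
    (hz : MvPolynomial.aeval ![u - 1, 1, c] G = 0) (hc1 : v c < 1)
    (huc : v u ≤ v c ^ (k + 1)) : v ((R.coeff 0 : ℤ) : K) ≤ v c := by
  have hvc0 : 0 < v c := FinitePlace.pos_iff.mpr hc
  by_contra hcon
  push Not at hcon
  have h1 := congrArg v (eval_decomp hloc u c hu hz)
  rw [map_neg_eq_map, map_mul, map_mul, map_pow] at h1
  have h2 : R.eval₂ (Int.castRingHom K) c =
      (R.coeff 0 : ℤ) + R.divX.eval₂ (Int.castRingHom K) c * c := by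
    conv_lhs => rw [← Polynomial.divX_mul_X_add R]
    rw [Polynomial.eval₂_add, Polynomial.eval₂_mul, Polynomial.eval₂_X, Polynomial.eval₂_C,
      eq_intCast, add_comm]
  have h3 : v (R.eval₂ (Int.castRingHom K) c) = v ((R.coeff 0 : ℤ) : K) := by
    rw [h2]
    apply add_eq_of_lt
    rw [map_mul]
    calc _ ≤ 1 * v c := mul_le_mul_of_nonneg_right (eval_le_one v _ _ hc1.le) hvc0.le
      _ < _ := by rwa [one_mul]
  have hu1 : v u ≤ 1 := huc.trans (pow_le_one₀ hvc0.le hc1.le)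
  have h4 := eval₂_le_one v W u c hu1 hc1.le
  rw [h3] at h1
  have h5 : v c ^ k * v ((R.coeff 0 : ℤ) : K) ≤ v c ^ k * v c := by
    rw [h1, ← pow_succ]
    calc _ ≤ 1 * v u := mul_le_mul_of_nonneg_right h4 (apply_nonneg _ _)
      _ ≤ _ := by rwa [one_mul]
  have h6 := le_of_mul_le_mul_left h5 (pow_pos hvc0 _)
  exact absurd h6 (not_le.2 hcon)

lemma ev_pow (k : ℕ) : ∃ n0 : ℕ, ∀ n ≥ n0, 5 ^ (k + 1) * n ^ 2 ≤ 5 ^ n := by
  have h1 : Filter.Tendsto (fun n : ℕ => (n : ℝ) ^ 2 / 5 ^ n) Filter.atTop (nhds 0) :=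
    tendsto_pow_const_div_const_pow_of_one_lt 2 (by norm_num)
  have h2 : (0 : ℝ) < (5 ^ (k + 1))⁻¹ := by positivity
  have h3 := (h1.eventually_lt_const h2).exists_forall_of_atTop
  obtain ⟨n0, hn0⟩ := h3
  refine ⟨n0, fun n hn => ?_⟩
  have h4 := hn0 n hn
  have h5 : (0 : ℝ) < 5 ^ n := by positivity
  rw [div_lt_iff₀ h5] at h4
  have h6 : (5 : ℝ) ^ (k + 1) * (n : ℝ) ^ 2 ≤ 5 ^ n := by
    have h7 := mul_lt_mul_of_pos_left h4 (show (0 : ℝ) < 5 ^ (k + 1) by positivity)
    rw [← mul_assoc, mul_inv_cancel₀ (by positivity), one_mul] at h7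
    exact h7.le
  exact_mod_cast h6

/-- what happens at a finite place: `ρ` is a natural number such that `|a + b| = ρ ^ (- n) max` -/
def Loc (v : FinitePlace K) (n : ℕ) (r : ℤ) (a b c : K) (ρ : ℕ) : Prop :=
  1 ≤ ρ ∧ v (a + b) * (ρ : ℝ) ^ n = mx v a b c ∧ v (r : K) * (ρ : ℝ) ≤ 1 ∧
    (∀ N : ℕ, ρ ∣ N → v (N : K) * (ρ : ℝ) ≤ 1) ∧
    (ρ = 1 ∨ (v c < mx v a b c ∧ v a = mx v a b c ∧ v b = mx v a b c))

/-- the finite places -/
theorem fin_letter (G : MvPolynomial (Fin 3) ℤ) (D : ℕ) (hG : G.IsHomogeneous D) (hG0 : G ≠ 0) :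
    ∃ (r : ℤ) (n0 : ℕ), r ≠ 0 ∧ ∀ n ≥ n0, Nat.Coprime n 6 → Nat.Coprime n r.natAbs →
      ∀ (K : Type) [Field K] [NumberField K], Module.finrank ℚ K = 2 → ∀ v : FinitePlace K,
      ∀ a b c : K, a ≠ 0 → b ≠ 0 → c ≠ 0 → a ^ n + b ^ n + c ^ n = 0 →
      MvPolynomial.aeval ![a, b, c] G = 0 → ∃ ρ : ℕ, Loc v n r a b c ρ := by
  obtain ⟨m, k, W, R, hR, hloc⟩ := decomp hG hG0
  obtain ⟨n0, hn0⟩ := ev_pow k
  refine ⟨R.coeff 0, max n0 (k + 2), hR, fun n hn h6 hr K _ _ hK v a b c ha hb hc h hz => ?_⟩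
  have hn1 : n0 ≤ n := (le_max_left _ _).trans hn
  have hn2 : k + 2 ≤ n := (le_max_right _ _).trans hn
  have hm : ∀ p : ℕ, p.Prime → p ∣ n → Module.finrank ℚ K + 1 < p := by
    rw [hK]; exact prime_gt_three h6
  have hodd : Odd n := odd_of_big Module.finrank_pos hm
  by_cases hlt : v (a + b) < mx v a b c
  swap
  · refine ⟨1, le_rfl, ?_, ?_, ?_, Or.inl rfl⟩
    · rw [Nat.cast_one, one_pow, mul_one]
      refine le_antisymm ?_ (not_lt.1 hlt)
      exact (FinitePlace.add_le v a b).trans (max_le (le_mx1 v a b c) (le_mx2 v a b c))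
    · rw [Nat.cast_one, mul_one]
      exact intCast_le_one v _
    · intro N _
      rw [Nat.cast_one, mul_one]
      exact natCast_le_one v _
  obtain ⟨h1, h2, h3, h4, h5⟩ := core v (by omega) hm hb h hlt
  have hcb : c / b ≠ 0 := div_ne_zero hc hb
  have hvc0 : 0 < v (c / b) := FinitePlace.pos_iff.mpr hcb
  have hab : (a + b) / b ≠ 0 := div_ne_zero (add_ne_zero_of_fermat hodd hc h) hb
  have hvu0 : 0 < v ((a + b) / b) := FinitePlace.pos_iff.mpr hab
  have hn' : (n : K) ≠ 0 := by exact_mod_cast (by omega : n ≠ 0)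
  have hvn0 : 0 < v (n : K) := FinitePlace.pos_iff.mpr hn'
  -- the point is very near to the line
  have hnear : v ((a + b) / b) ≤ v (c / b) ^ (k + 1) := by
    rcases (natCast_le_one v n).lt_or_eq with h7 | h7
    · obtain ⟨p, hp, hpn, hvp⟩ := exists_prime_of_lt v n (by omega) h7
      have h8 := nrm_ge v hp hvp
      have h9 : 5 ≤ p := by
        have := prime_gt_three h6 p hp hpn
        have h10 : p ≠ 4 := fun h11 => by
          rw [h11] at hp; exact absurd hp (by norm_num)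
        omega
      have h10 : v (c / b) ≤ 5⁻¹ := (le_inv_nrm v h3).trans (by
        apply inv_anti₀ (by norm_num)
        exact_mod_cast h9.trans h8)
      have hge := prime_ge v (p := n) (by omega)
      rw [hK] at hge
      have hnR : (0 : ℝ) < n := by exact_mod_cast (by omega : 0 < n)
      have h11 : v ((a + b) / b) ≤ (n : ℝ) ^ 2 * v (c / b) ^ n := by
        rw [h5, ← mul_assoc]
        have h12 : 1 ≤ (n : ℝ) ^ 2 * v (n : K) := by
          have := mul_le_mul_of_nonneg_left hge (show (0 : ℝ) ≤ (n : ℝ) ^ 2 by positivity)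
          rwa [mul_inv_cancel₀ (by positivity)] at this
        exact le_mul_of_one_le_left hvu0.le h12
      refine h11.trans ?_
      have h12 : v (c / b) ^ n = v (c / b) ^ (k + 1) * v (c / b) ^ (n - (k + 1)) := by
        rw [← pow_add]
        congr 1
        omega
      rw [h12]
      have h13 : (n : ℝ) ^ 2 * v (c / b) ^ (n - (k + 1)) ≤ 1 := by
        calc (n : ℝ) ^ 2 * v (c / b) ^ (n - (k + 1)) ≤ (n : ℝ) ^ 2 * (5⁻¹) ^ (n - (k + 1)) := by
              gcongr
          _ ≤ 1 := by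
            rw [inv_pow, ← div_eq_mul_inv, div_le_one (by positivity)]
            have h14 := hn0 n hn1
            have h15 : (5 : ℝ) ^ (k + 1) * (n : ℝ) ^ 2 ≤ 5 ^ n := by exact_mod_cast h14
            have h16 : (5 : ℝ) ^ n = 5 ^ (k + 1) * 5 ^ (n - (k + 1)) := by
              rw [← pow_add]
              congr 1
              omega
            rw [h16] at h15
            exact le_of_mul_le_mul_left h15 (by positivity)
      calc (n : ℝ) ^ 2 * (v (c / b) ^ (k + 1) * v (c / b) ^ (n - (k + 1))) =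
            v (c / b) ^ (k + 1) * ((n : ℝ) ^ 2 * v (c / b) ^ (n - (k + 1))) := by ring
        _ ≤ v (c / b) ^ (k + 1) * 1 := by gcongr
        _ = _ := mul_one _
    · rw [h7, one_mul] at h5
      rw [← h5]
      exact pow_le_pow_of_le_one hvc0.le h3.le (by omega)
  have hvr := curve_bound v hloc hab hcb (aeval_div hG hb hz) h3 hnear
  -- so `n` is a unit
  have hvn : v (n : K) = 1 := by
    by_contra h7
    have h8 : v (n : K) < 1 := lt_of_le_of_ne (natCast_le_one v n) h7
    have h9 : IsCoprime (n : ℤ) (R.coeff 0) := by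
      rw [Int.isCoprime_iff_gcd_eq_one]
      exact hr
    obtain ⟨x, y, hxy⟩ := h9
    have h10 : (x : K) * n + (y : K) * ((R.coeff 0 : ℤ) : K) = 1 := by
      exact_mod_cast congrArg (Int.cast : ℤ → K) hxy
    have h11 : v ((x : K) * n + (y : K) * ((R.coeff 0 : ℤ) : K)) < 1 := by
      refine (FinitePlace.add_le v _ _).trans_lt (max_lt ?_ ?_)
      · rw [map_mul]
        calc _ ≤ 1 * v (n : K) := mul_le_mul_of_nonneg_right (intCast_le_one v _) hvn0.le
          _ < 1 := by rwa [one_mul]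
      · rw [map_mul]
        calc _ ≤ 1 * v ((R.coeff 0 : ℤ) : K) :=
              mul_le_mul_of_nonneg_right (intCast_le_one v _) (apply_nonneg _ _)
          _ < 1 := by
            rw [one_mul]
            exact hvr.trans_lt h3
    rw [h10, map_one] at h11
    exact lt_irrefl _ h11
  rw [hvn, one_mul] at h5
  obtain ⟨j, hj, hj1⟩ := value_eq v hcb h3
  have hN := one_lt_nrm' v
  have hvb : 0 < v b := FinitePlace.pos_iff.mpr hb
  have hNj : (0 : ℝ) < (nrm v : ℝ) ^ j := by positivity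
  refine ⟨nrm v ^ j, Nat.one_le_pow _ _ (by have := one_lt_nrm v; omega), ?_, ?_, ?_, Or.inr ?_⟩
  · have h7 : v (a + b) = v ((a + b) / b) * v b := by
      rw [map_div₀]
      field_simp
    rw [h2, h7, ← h5]
    push_cast
    calc v (c / b) ^ n * v b * ((nrm v : ℝ) ^ j) ^ n = (v (c / b) * (nrm v : ℝ) ^ j) ^ n * v b := by
          rw [mul_pow]; ring
      _ = v b := by rw [hj1, one_pow, one_mul]
  · push_cast
    rw [← hj1]
    gcongr
  · rintro N ⟨M, rfl⟩
    push_cast
    rw [map_mul, map_pow]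
    have h7 : v (nrm v : K) ≤ (nrm v : ℝ)⁻¹ := by
      apply le_inv_nrm
      have h8 : ((nrm v : ℕ) : 𝓞 K) ∈ v.maximalIdeal.asIdeal := Ideal.absNorm_mem _
      rw [← FinitePlace.norm_lt_one_iff_mem K, map_natCast, FinitePlace.norm_embedding_eq] at h8
      exact h8
    calc v (nrm v : K) ^ j * v (M : K) * (nrm v : ℝ) ^ j ≤
          ((nrm v : ℝ)⁻¹) ^ j * 1 * (nrm v : ℝ) ^ j := by
          gcongr
          exact natCast_le_one v M
      _ = 1 := by
        rw [mul_one, ← mul_pow, inv_mul_cancel₀ (by positivity), one_pow]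
  · rw [h2]
    refine ⟨?_, h1, rfl⟩
    rw [map_div₀, div_lt_one hvb] at h3
    exact h3

end Pool.Agent.H577.UQ
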