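import Pool.Agent.H577.UQ.Finite

set_option autoImplicit false

/-! # The norms of the sums of two coordinates -/

namespace Pool.Agent.H577.UQ

open NumberField IsDedekindDomain Pool.Agent.W7.FH

section prod

variable {K : Type} [Field K] [NumberField K]

lemma prodT {T : Finset (FinitePlace K)} {x : K} (hx : x ≠ 0) (hT : ∀ v ∉ T, v x = 1) :
    ∏ v ∈ T, v x = ((|Algebra.norm ℚ x| : ℚ) : ℝ)⁻¹ := by
  have h1 := FinitePlace.prod_eq_inv_abs_norm hx
  rw [finprod_eq_prod_of_mulSupport_subset (s := T)] at h1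
  · rw [h1]
    push_cast
    rfl
  · intro v hv
    by_contra h2
    exact hv (hT v h2)

lemma prodT_ge {T : Finset (FinitePlace K)} {x : K} (hx : x ≠ 0) (h1 : ∀ v : FinitePlace K, v x ≤ 1) :
    ((|Algebra.norm ℚ x| : ℚ) : ℝ)⁻¹ ≤ ∏ v ∈ T, v x := by
  classical
  have hfin := FinitePlace.hasFiniteMulSupport hx
  have h2 : ∀ v ∉ T ∪ hfin.toFinset, v x = 1 := by
    intro v hv
    rw [Finset.mem_union, not_or] at hv
    by_contra h3
    exact hv.2 ((Set.Finite.mem_toFinset hfin).2 h3)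
  rw [← prodT hx h2]
  rw [← Finset.prod_sdiff (Finset.subset_union_left (s₁ := T) (s₂ := hfin.toFinset))]
  calc _ ≤ 1 * ∏ v ∈ T, v x := by
        apply mul_le_mul_of_nonneg_right _ (Finset.prod_nonneg fun v _ => apply_nonneg _ _)
        exact Finset.prod_le_one (fun v _ => apply_nonneg _ _) (fun v _ => h1 v)
    _ = _ := one_mul _

lemma norm_int (hK : Module.finrank ℚ K = 2) (r : ℤ) :
    ((|Algebra.norm ℚ (r : K)| : ℚ) : ℝ) = (r : ℝ) ^ 2 := by
  have h1 : (r : K) = algebraMap ℚ K r := by simp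
  rw [h1, Algebra.norm_algebraMap, hK, abs_of_nonneg (by positivity)]
  push_cast
  rfl

end prod

/-- the sums of two coordinates -/
def Sm {A : Type} [Add A] (t : Fin 3 → A) (i : Fin 3) : A := t (i + 1) + t (i + 2)

lemma mx_cyc {K : Type} [Field K] [NumberField K] (v : FinitePlace K) (t : Fin 3 → K) (i : Fin 3) :
    mx v (t (i + 1)) (t (i + 2)) (t i) = mx v (t 0) (t 1) (t 2) := by
  fin_cases i
  · exact mx_rot v _ _ _
  · change mx v (t 2) (t 0) (t 1) = _
    rw [← mx_rot, ← mx_rot, ← mx_rot, ← mx_rot]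
  · rfl

lemma aeval_cyc {K : Type} [Field K] (G : MvPolynomial (Fin 3) ℤ) (t : Fin 3 → K) (i : Fin 3) :
    MvPolynomial.aeval ![t (i + 1), t (i + 2), t i]
      (MvPolynomial.rename (fun j : Fin 3 => j - (i + 1)) G) = MvPolynomial.aeval t G := by
  rw [MvPolynomial.aeval_rename]
  congr 1
  congr 1
  funext j
  fin_cases i <;> fin_cases j <;> rfl

lemma cyc_injective (i : Fin 3) : Function.Injective (fun j : Fin 3 => j - (i + 1)) := by
  intro j k h
  simpa using h

theorem global (G : MvPolynomial (Fin 3) ℤ) (D : ℕ) (hG : G.IsHomogeneous D) (hG0 : G ≠ 0) :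
    ∃ (Γ P e : ℕ), 2 ≤ P ∧ 6 ∣ P ∧ ∀ n > e, Nat.Coprime n P →
      ∀ (K : Type) [Field K] [NumberField K], Module.finrank ℚ K = 2 →
      ∀ t : Fin 3 → K, (∀ i, t i ≠ 0) → (t 0) ^ n + (t 1) ^ n + (t 2) ^ n = 0 →
      MvPolynomial.aeval t G = 0 → ∃ (r : Fin 3 → ℕ) (H : ℝ), 0 < H ∧
        (∀ i, 1 ≤ r i ∧ r i ≤ Γ ∧ ((|Algebra.norm ℚ (Sm t i)| : ℚ) : ℝ) * H = (r i : ℝ) ^ n) ∧
        ((∀ i j, r i = r j) → UnitCase (t 0) (t 1) (t 2)) := by
  classical
  -- the curve in cyclic coordinates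
  have key := fun i : Fin 3 => fin_letter (MvPolynomial.rename (fun j : Fin 3 => j - (i + 1)) G) D
    hG.rename_isHomogeneous (fun h => hG0 (MvPolynomial.rename_injective _ (cyc_injective i)
      (by rw [h, map_zero])))
  choose r n0 hr0 hkey using key
  set P : ℕ := 6 * ((r 0).natAbs * (r 1).natAbs * (r 2).natAbs) with hP
  have hrp : ∀ i, 0 < (r i).natAbs := fun i => Int.natAbs_pos.2 (hr0 i)
  have hP0 : 0 < P := by
    have := hrp 0
    have := hrp 1
    have := hrp 2
    positivity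
  have hP2 : 2 ≤ P := by
    have h1 : 0 < (r 0).natAbs * (r 1).natAbs * (r 2).natAbs := by
      have := hrp 0
      have := hrp 1
      have := hrp 2
      positivity
    omega
  set e : ℕ := n0 0 + n0 1 + n0 2 + 1 with he
  refine ⟨(r 0).natAbs ^ 2 + (r 1).natAbs ^ 2 + (r 2).natAbs ^ 2, P, e, hP2, ⟨_, hP⟩,
    fun n hne hcoP K _ _ hK t ht hF hz => ?_⟩
  have hco6 : Nat.Coprime n 6 := Nat.Coprime.coprime_mul_right_right hcoP
  have hcor' : Nat.Coprime n ((r 0).natAbs * (r 1).natAbs * (r 2).natAbs) :=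
    Nat.Coprime.coprime_mul_left_right hcoP
  have hcor : ∀ i, Nat.Coprime n (r i).natAbs := by
    intro i
    fin_cases i
    · exact Nat.Coprime.coprime_mul_right_right (Nat.Coprime.coprime_mul_right_right hcor')
    · exact Nat.Coprime.coprime_mul_left_right (Nat.Coprime.coprime_mul_right_right hcor')
    · exact Nat.Coprime.coprime_mul_left_right hcor'
  have hn0 : ∀ i, n0 i ≤ n := by
    intro i
    fin_cases i
    · change n0 0 ≤ n
      omega
    · change n0 1 ≤ n
      omega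
    · change n0 2 ≤ n
      omega
  have hodd : Odd n := by
    apply odd_of_big (d := 2) (by norm_num)
    exact prime_gt_three hco6
  have hFi : ∀ i, (t (i + 1)) ^ n + (t (i + 2)) ^ n + (t i) ^ n = 0 := by
    intro i
    fin_cases i
    · change (t 1) ^ n + (t 2) ^ n + (t 0) ^ n = 0
      linear_combination hF
    · change (t 2) ^ n + (t 0) ^ n + (t 1) ^ n = 0
      linear_combination hF
    · change (t 0) ^ n + (t 1) ^ n + (t 2) ^ n = 0
      exact hF
  have hS : ∀ i, Sm t i ≠ 0 := fun i => add_ne_zero_of_fermat hodd (ht i) (hFi i)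
  have hloc : ∀ i (v : FinitePlace K), ∃ ρ : ℕ, Loc v n (r i) (t (i + 1)) (t (i + 2)) (t i) ρ := by
    intro i v
    exact hkey i n (hn0 i) hco6 (hcor i) K hK v _ _ _ (ht _) (ht _) (ht _) (hFi i)
      (by rw [aeval_cyc]; exact hz)
  choose ρ hρ using hloc
  -- the common support
  set T : Finset (FinitePlace K) :=
    (Finset.univ.biUnion fun i => (FinitePlace.hasFiniteMulSupport (ht i)).toFinset) ∪
    (Finset.univ.biUnion fun i => (FinitePlace.hasFiniteMulSupport (hS i)).toFinset) with hT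
  have hTt : ∀ v ∉ T, ∀ i, v (t i) = 1 := by
    intro v hv i
    rw [hT, Finset.mem_union, not_or] at hv
    by_contra h1
    apply hv.1
    rw [Finset.mem_biUnion]
    exact ⟨i, Finset.mem_univ _, (Set.Finite.mem_toFinset _).2 h1⟩
  have hTS : ∀ v ∉ T, ∀ i, v (Sm t i) = 1 := by
    intro v hv i
    rw [hT, Finset.mem_union, not_or] at hv
    by_contra h1
    apply hv.2
    rw [Finset.mem_biUnion]
    exact ⟨i, Finset.mem_univ _, (Set.Finite.mem_toFinset _).2 h1⟩
  have hmx0 : ∀ v : FinitePlace K, 0 < mx v (t 0) (t 1) (t 2) := fun v =>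
    (FinitePlace.pos_iff.mpr (ht 0)).trans_le (le_mx1 v _ _ _)
  set H : ℝ := ∏ v ∈ T, mx v (t 0) (t 1) (t 2) with hH
  have hH0 : 0 < H := Finset.prod_pos fun v _ => hmx0 v
  have hnorm : ∀ i, 0 < ((|Algebra.norm ℚ (Sm t i)| : ℚ) : ℝ) := by
    intro i
    have h1 : Algebra.norm ℚ (Sm t i) ≠ 0 := by
      rw [Ne, Algebra.norm_eq_zero_iff]
      exact hS i
    exact_mod_cast abs_pos.2 h1
  have hrel : ∀ i, ((|Algebra.norm ℚ (Sm t i)| : ℚ) : ℝ) * H = ((∏ v ∈ T, ρ i v : ℕ) : ℝ) ^ n := by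
    intro i
    have h1 : H = (∏ v ∈ T, v (Sm t i)) * ((∏ v ∈ T, ρ i v : ℕ) : ℝ) ^ n := by
      rw [hH]
      push_cast
      rw [← Finset.prod_pow, ← Finset.prod_mul_distrib]
      refine Finset.prod_congr rfl fun v _ => ?_
      rw [← mx_cyc v t i]
      exact (hρ i v).2.1.symm
    rw [h1, prodT (hS i) (fun v hv => hTS v hv i), ← mul_assoc,
      mul_inv_cancel₀ (hnorm i).ne', one_mul]
  have hone : ∀ i, 1 ≤ ∏ v ∈ T, ρ i v := by
    intro i
    exact Finset.one_le_prod' fun v _ => (hρ i v).1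
  refine ⟨fun i => ∏ v ∈ T, ρ i v, H, hH0, fun i => ⟨hone i, ?_, hrel i⟩, ?_⟩
  · -- the bound
    have h1 : (∏ v ∈ T, v ((r i : ℤ) : K)) * ((∏ v ∈ T, ρ i v : ℕ) : ℝ) ≤ 1 := by
      push_cast
      rw [← Finset.prod_mul_distrib]
      refine Finset.prod_le_one (fun v _ => ?_) fun v _ => (hρ i v).2.2.1
      exact mul_nonneg (apply_nonneg _ _) (Nat.cast_nonneg _)
    have hri : ((r i : ℤ) : K) ≠ 0 := by exact_mod_cast hr0 i
    have h2 := prodT_ge (T := T) hri (fun v => intCast_le_one v _)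
    rw [norm_int hK] at h2
    have h3 : (0 : ℝ) < ((r i : ℤ) : ℝ) ^ 2 := by
      have : ((r i : ℤ) : ℝ) ≠ 0 := by exact_mod_cast hr0 i
      positivity
    have h4 : (((r i : ℤ) : ℝ) ^ 2)⁻¹ * ((∏ v ∈ T, ρ i v : ℕ) : ℝ) ≤ 1 :=
      (mul_le_mul_of_nonneg_right h2 (Nat.cast_nonneg _)).trans h1
    rw [inv_mul_le_iff₀ h3, mul_one] at h4
    have h5 : ((∏ v ∈ T, ρ i v : ℕ) : ℤ) ≤ (r i) ^ 2 := by exact_mod_cast h4
    have h6 : ∏ v ∈ T, ρ i v ≤ (r i).natAbs ^ 2 := by
      zify
      rw [sq_abs]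
      exact_mod_cast h5
    refine h6.trans ?_
    fin_cases i
    · change (r 0).natAbs ^ 2 ≤ _
      omega
    · change (r 1).natAbs ^ 2 ≤ _
      omega
    · change (r 2).natAbs ^ 2 ≤ _
      omega
  · -- the case of equality
    intro heq
    set q : ℕ := ∏ v ∈ T, ρ 0 v with hq
    have hq1 : 1 ≤ q := hone 0
    have hqi : ∀ i, ∏ v ∈ T, ρ i v = q := fun i => heq i 0
    have hbig : ∀ v : FinitePlace K, ∀ i, ρ i v ≠ 1 → v (t i) < mx v (t 0) (t 1) (t 2) ∧
        v (t (i + 1)) = mx v (t 0) (t 1) (t 2) ∧ v (t (i + 2)) = mx v (t 0) (t 1) (t 2) := by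
      intro v i h1
      have h2 := (hρ i v).2.2.2.2.resolve_left h1
      rw [mx_cyc v t i] at h2
      exact h2
    have hout : ∀ v ∉ T, ∀ i, ρ i v = 1 := by
      intro v hv i
      by_contra h1
      have h2 := hbig v i h1
      rw [hTt v hv, ← h2.2.1, hTt v hv] at h2
      exact lt_irrefl _ h2.1
    have hle : ∀ v ∈ T, v (q : K) * (((ρ 0 v : ℝ) * ρ 1 v) * ρ 2 v) ≤ 1 := by
      intro v hv
      have h1 : ∀ i, v (q : K) * (ρ i v : ℝ) ≤ 1 := by
        intro i
        apply (hρ i v).2.2.2.1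
        rw [← hqi i]
        exact Finset.dvd_prod_of_mem _ hv
      by_cases e0 : ρ 0 v = 1
      · by_cases e1 : ρ 1 v = 1
        · rw [e0, e1]
          simpa using h1 2
        · have e2 : ρ 2 v = 1 := by
            by_contra e2
            have h2 := hbig v 1 e1
            have h3 := hbig v 2 e2
            have h4 : v (t 1) = mx v (t 0) (t 1) (t 2) := h3.2.2
            exact absurd h4 h2.1.ne
          rw [e0, e2]
          simpa using h1 1
      · have e1 : ρ 1 v = 1 := by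
          by_contra e1
          have h2 := hbig v 0 e0
          have h3 := hbig v 1 e1
          have h4 : v (t 0) = mx v (t 0) (t 1) (t 2) := h3.2.2
          exact absurd h4 h2.1.ne
        have e2 : ρ 2 v = 1 := by
          by_contra e2
          have h2 := hbig v 0 e0
          have h3 := hbig v 2 e2
          have h4 : v (t 0) = mx v (t 0) (t 1) (t 2) := h3.2.1
          exact absurd h4 h2.1.ne
        rw [e1, e2]
        simpa using h1 0
    have hprod : (∏ v ∈ T, v (q : K)) * (q : ℝ) ^ 3 ≤ 1 := by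
      have h1 : (q : ℝ) ^ 3 = ∏ v ∈ T, (((ρ 0 v : ℝ) * ρ 1 v) * ρ 2 v) := by
        have h2 : ∀ i, (q : ℝ) = ∏ v ∈ T, (ρ i v : ℝ) := by
          intro i
          rw [← hqi i]
          push_cast
          rfl
        rw [Finset.prod_mul_distrib, Finset.prod_mul_distrib, ← h2 0, ← h2 1, ← h2 2]
        ring
      rw [h1, ← Finset.prod_mul_distrib]
      refine Finset.prod_le_one (fun v _ => ?_) hle
      have : (0 : ℝ) ≤ v (q : K) := apply_nonneg _ _
      positivity
    have hqK : ((q : ℤ) : K) ≠ 0 := by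
      have : q ≠ 0 := by omega
      exact_mod_cast this
    have h2 := prodT_ge (T := T) hqK (fun v => intCast_le_one v _)
    rw [norm_int hK] at h2
    push_cast at h2
    have hqR : (0 : ℝ) < q := by exact_mod_cast (by omega : 0 < q)
    have h3 : ((q : ℝ) ^ 2)⁻¹ * (q : ℝ) ^ 3 ≤ 1 :=
      (mul_le_mul_of_nonneg_right h2 (by positivity)).trans hprod
    have h4 : ((q : ℝ) ^ 2)⁻¹ * (q : ℝ) ^ 3 = q := by
      field_simp
    rw [h4] at h3
    have h5 : q = 1 := by
      have : q ≤ 1 := by exact_mod_cast h3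
      omega
    have h6 : ∀ i (v : FinitePlace K), ρ i v = 1 := by
      intro i v
      by_cases hv : v ∈ T
      · have h7 : ρ i v ∣ ∏ v ∈ T, ρ i v := Finset.dvd_prod_of_mem _ hv
        rw [hqi i, h5] at h7
        exact Nat.dvd_one.1 h7
      · exact hout v hv i
    have h7 : ∀ i (v : FinitePlace K), v (Sm t i) = mx v (t 0) (t 1) (t 2) := by
      intro i v
      have h8 := (hρ i v).2.1
      rw [h6, Nat.cast_one, one_pow, mul_one, mx_cyc] at h8
      exact h8
    intro v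
    exact ⟨h7 2 v, h7 0 v, h7 1 v⟩

end Pool.Agent.H577.UQ
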