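import Pool.Agent.H577.UQ.RealPlace

set_option autoImplicit false

/-! # Two real places -/

namespace Pool.Agent.H577.UQ

open Filter

/-- the ratios of the numbers from `1` to `Γ` -/
noncomputable def ratios (Γ : ℕ) : Finset ℝ :=
  ((Finset.Icc 1 Γ) ×ˢ (Finset.Icc 1 Γ)).image fun x => (x.1 : ℝ) / x.2

lemma mem_ratios {Γ a b : ℕ} (ha : 1 ≤ a) (ha1 : a ≤ Γ) (hb : 1 ≤ b) (hb1 : b ≤ Γ) :
    (a : ℝ) / b ∈ ratios Γ := by
  unfold ratios
  rw [Finset.mem_image]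
  exact ⟨(a, b), by simp [ha, ha1, hb, hb1], rfl⟩

lemma ratios_pos {Γ : ℕ} {q : ℝ} (hq : q ∈ ratios Γ) : 0 < q := by
  unfold ratios at hq
  rw [Finset.mem_image] at hq
  obtain ⟨x, hx, rfl⟩ := hq
  rw [Finset.mem_product, Finset.mem_Icc, Finset.mem_Icc] at hx
  have h1 : (0 : ℝ) < x.1 := by exact_mod_cast hx.1.1
  have h2 : (0 : ℝ) < x.2 := by exact_mod_cast hx.2.1
  positivity

noncomputable def Q1 (E : Finset ℝ) (Γ : ℕ) : Finset ℝ :=
  (E ×ˢ ratios Γ).image fun x => x.1 * x.2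

noncomputable def Q2 (E : Finset ℝ) (Γ : ℕ) : Finset ℝ :=
  ((E ×ˢ E) ×ˢ ratios Γ).image fun x => x.1.1 * x.1.2 * x.2

lemma mem_Q1 {E : Finset ℝ} {Γ : ℕ} {e q : ℝ} (he : e ∈ E) (hq : q ∈ ratios Γ) :
    e * q ∈ Q1 E Γ := by
  unfold Q1
  rw [Finset.mem_image]
  exact ⟨(e, q), by simp [he, hq], rfl⟩

lemma mem_Q2 {E : Finset ℝ} {Γ : ℕ} {e e' q : ℝ} (he : e ∈ E) (he' : e' ∈ E)
    (hq : q ∈ ratios Γ) : e * e' * q ∈ Q2 E Γ := by
  unfold Q2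
  rw [Finset.mem_image]
  exact ⟨((e, e'), q), by simp [he, he', hq], rfl⟩

lemma Q1_pos {E : Finset ℝ} (hE : ∀ e ∈ E, 0 < e) {Γ : ℕ} {q : ℝ} (hq : q ∈ Q1 E Γ) : 0 < q := by
  unfold Q1 at hq
  rw [Finset.mem_image] at hq
  obtain ⟨x, hx, rfl⟩ := hq
  rw [Finset.mem_product] at hx
  exact mul_pos (hE _ hx.1) (ratios_pos hx.2)

lemma Q2_pos {E : Finset ℝ} (hE : ∀ e ∈ E, 0 < e) {Γ : ℕ} {q : ℝ} (hq : q ∈ Q2 E Γ) : 0 < q := by
  unfold Q2 at hq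
  rw [Finset.mem_image] at hq
  obtain ⟨x, hx, rfl⟩ := hq
  rw [Finset.mem_product, Finset.mem_product] at hx
  exact mul_pos (mul_pos (hE _ hx.1.1) (hE _ hx.1.2)) (ratios_pos hx.2)

lemma exists_delta (Q : Finset ℝ) : ∃ δ : ℝ, 0 < δ ∧ δ ≤ 1 / 10 ∧
    ∀ q ∈ Q, (q < 1 → q < 1 - δ) ∧ (1 < q → 1 < q * (1 - δ) ^ 2) := by
  have h1 : ∀ q ∈ Q, ∀ᶠ δ in nhdsWithin (0 : ℝ) (Set.Ioi 0),
      (q < 1 → q < 1 - δ) ∧ (1 < q → 1 < q * (1 - δ) ^ 2) := by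
    intro q _
    apply Filter.Eventually.filter_mono nhdsWithin_le_nhds
    have h2 : Tendsto (fun δ : ℝ => 1 - δ) (nhds 0) (nhds 1) := by
      have : Continuous (fun δ : ℝ => 1 - δ) := by fun_prop
      simpa using this.tendsto 0
    have h3 : Tendsto (fun δ : ℝ => q * (1 - δ) ^ 2) (nhds 0) (nhds q) := by
      have : Continuous (fun δ : ℝ => q * (1 - δ) ^ 2) := by fun_prop
      simpa using this.tendsto 0
    apply Filter.Eventually.and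
    · by_cases hq : q < 1
      · filter_upwards [h2.eventually_const_lt hq] with δ h _
        exact h
      · exact Eventually.of_forall fun δ h => absurd h hq
    · by_cases hq : 1 < q
      · filter_upwards [h3.eventually_const_lt hq] with δ h _
        exact h
      · exact Eventually.of_forall fun δ h => absurd h hq
  have h2 := (Filter.eventually_all_finset Q).2 h1
  have h3 : ∀ᶠ δ in nhdsWithin (0 : ℝ) (Set.Ioi 0), δ ≤ 1 / 10 := by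
    apply Filter.Eventually.filter_mono nhdsWithin_le_nhds
    exact (eventually_lt_nhds (by norm_num : (0 : ℝ) < 1 / 10)).mono fun _ h => h.le
  obtain ⟨δ, hδ1, hδ2, hδ3⟩ := (h2.and (h3.and self_mem_nhdsWithin)).exists
  exact ⟨δ, hδ3, hδ2, hδ1⟩

/-- comparison of two of the products -/
lemma ratio_bound {n a b : ℕ} (hb : 1 ≤ b) {x y M A B : ℝ} (hM : 0 < M)
    (h : (a : ℝ) ^ n * y = (b : ℝ) ^ n * x) (hx : A * M ≤ x) (hy : y ≤ B * M) :
    A ≤ B * ((a : ℝ) / b) ^ n := by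
  have hbR : (0 : ℝ) < (b : ℝ) ^ n := by
    have : (0 : ℝ) < b := by exact_mod_cast hb
    positivity
  have h1 : (b : ℝ) ^ n * (A * M) ≤ (a : ℝ) ^ n * (B * M) := by
    calc (b : ℝ) ^ n * (A * M) ≤ (b : ℝ) ^ n * x := by gcongr
      _ = (a : ℝ) ^ n * y := h.symm
      _ ≤ (a : ℝ) ^ n * (B * M) := by gcongr
  rw [div_pow, mul_div_assoc', le_div_iff₀ hbR]
  have h2 : (A * (b : ℝ) ^ n) * M ≤ (B * (a : ℝ) ^ n) * M := by linarith
  exact le_of_mul_le_mul_right h2 hM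

/-- the data of the two real places -/
structure Two (n Γ : ℕ) (E : Finset ℝ) (δ : ℝ) (X1 S1 : Fin 3 → ℝ) (o1 l1 m1 : Fin 3)
    (X2 S2 : Fin 3 → ℝ) (o2 l2 m2 : Fin 3) (r : Fin 3 → ℕ) (κ : ℝ) : Prop where
  p1 : RP n X1 S1 o1 l1 m1
  p2 : RP n X2 S2 o2 l2 m2
  c1 : RP.mu X1 o1 m1 ≤ 1 - δ → ∃ e ∈ E, |(RP.mu X1 o1 m1 / e) ^ n - 1| ≤ 1 / 10
  c2 : RP.mu X2 o2 m2 ≤ 1 - δ → ∃ e ∈ E, |(RP.mu X2 o2 m2 / e) ^ n - 1| ≤ 1 / 10
  κ0 : 0 < κ
  r1 : ∀ i, 1 ≤ r i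
  r2 : ∀ i, r i ≤ Γ
  rel : ∀ i, S1 i * S2 i * κ = (r i : ℝ) ^ n

namespace Two

variable {n Γ : ℕ} {E : Finset ℝ} {δ : ℝ} {X1 S1 : Fin 3 → ℝ} {o1 l1 m1 : Fin 3}
    {X2 S2 : Fin 3 → ℝ} {o2 l2 m2 : Fin 3} {r : Fin 3 → ℕ} {κ : ℝ}

lemma symm (h : Two n Γ E δ X1 S1 o1 l1 m1 X2 S2 o2 l2 m2 r κ) :
    Two n Γ E δ X2 S2 o2 l2 m2 X1 S1 o1 l1 m1 r κ :=
  ⟨h.p2, h.p1, h.c2, h.c1, h.κ0, h.r1, h.r2, fun i => by rw [mul_comm (S2 i)]; exact h.rel i⟩

lemma cross (h : Two n Γ E δ X1 S1 o1 l1 m1 X2 S2 o2 l2 m2 r κ) (i j : Fin 3) :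
    (r i : ℝ) ^ n * (S1 j * S2 j) = (r j : ℝ) ^ n * (S1 i * S2 i) := by
  rw [← h.rel i, ← h.rel j]
  ring

lemma bd (h : Two n Γ E δ X1 S1 o1 l1 m1 X2 S2 o2 l2 m2 r κ) {i j : Fin 3} {A1 A2 B1 B2 : ℝ}
    (hA1 : 0 ≤ A1) (hA2 : 0 ≤ A2) (hB1 : 0 ≤ B1) (hB2 : 0 ≤ S2 j)
    (h1 : A1 * X1 o1 ≤ S1 i) (h2 : A2 * X2 o2 ≤ S2 i) (h3 : S1 j ≤ B1 * X1 o1)
    (h4 : S2 j ≤ B2 * X2 o2) : A1 * A2 ≤ B1 * B2 * ((r i : ℝ) / r j) ^ n := by
  have ho1 := h.p1.pos_o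
  have ho2 := h.p2.pos_o
  refine ratio_bound (h.r1 j) (mul_pos ho1 ho2) (h.cross i j) ?_ ?_
  · calc A1 * A2 * (X1 o1 * X2 o2) = (A1 * X1 o1) * (A2 * X2 o2) := by ring
      _ ≤ S1 i * S2 i := by
        apply mul_le_mul h1 h2 (by positivity)
        exact le_trans (by positivity) h1
  · calc S1 j * S2 j ≤ (B1 * X1 o1) * (B2 * X2 o2) := mul_le_mul h3 h4 hB2 (by positivity)
      _ = B1 * B2 * (X1 o1 * X2 o2) := by ring

end Two

lemma third : ∀ i j : Fin 3, ∃ z : Fin 3, z ≠ i ∧ z ≠ j := by decide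

lemma abs_bounds {x : ℝ} (h : |x - 1| ≤ 1 / 10) : 9 / 10 ≤ x ∧ x ≤ 11 / 10 := by
  rw [abs_le] at h
  constructor <;> linarith

lemma pow_bounds {μ e : ℝ} {n : ℕ} (he : 0 < e) (h : |(μ / e) ^ n - 1| ≤ 1 / 10) :
    9 / 10 * e ^ n ≤ μ ^ n ∧ μ ^ n ≤ 11 / 10 * e ^ n := by
  obtain ⟨h1, h2⟩ := abs_bounds h
  have h3 : μ ^ n = (μ / e) ^ n * e ^ n := by
    rw [div_pow]
    field_simp
  have h4 : 0 < e ^ n := by positivity
  rw [h3]
  exact ⟨mul_le_mul_of_nonneg_right h1 h4.le, mul_le_mul_of_nonneg_right h2 h4.le⟩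

lemma ratio_inv_pow {a b n : ℕ} (ha : 1 ≤ a) (hb : 1 ≤ b) :
    ((a : ℝ) / b) ^ n * ((b : ℝ) / a) ^ n = 1 := by
  have h1 : (0 : ℝ) < a := by exact_mod_cast ha
  have h2 : (0 : ℝ) < b := by exact_mod_cast hb
  rw [← mul_pow]
  have : (a : ℝ) / b * (b / a) = 1 := by field_simp
  rw [this, one_pow]

/-- both places are not near the corner -/
lemma case_nn {E : Finset ℝ} (hE : ∀ e ∈ E, 0 < e) (Γ : ℕ) {δ : ℝ} (hδ : 0 < δ) :
    ∀ᶠ n : ℕ in atTop, ∀ (X1 S1 : Fin 3 → ℝ) (o1 l1 m1 : Fin 3) (X2 S2 : Fin 3 → ℝ)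
      (o2 l2 m2 : Fin 3) (r : Fin 3 → ℕ) (κ : ℝ), Two n Γ E δ X1 S1 o1 l1 m1 X2 S2 o2 l2 m2 r κ →
      RP.mu X1 o1 m1 ≤ 1 - δ → RP.mu X2 o2 m2 ≤ 1 - δ → False := by
  have ev1 := (Filter.eventually_all_finset (Q2 E Γ)).2 fun q hq =>
    sep (q := q) (A := 81 / 400) (B := 5 / δ ^ 2) (Q2_pos hE hq) (by norm_num) (k := 2)
      (by norm_num)
  have ev2 := (Filter.eventually_all_finset (Q1 E Γ)).2 fun q hq =>
    sep (q := q) (A := 9 / 40 * δ) (B := 5 / δ ^ 2) (Q1_pos hE hq) (by positivity) (k := 1)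
      (by norm_num)
  filter_upwards [ev1, ev2, eventually_ge_atTop 1] with n e1 e2 hn X1 S1 o1 l1 m1 X2 S2 o2 l2 m2 r κ
    h hμ1 hμ2
  have hnR : (0 : ℝ) < n := by exact_mod_cast hn
  obtain ⟨ε1, hε1, hc1⟩ := h.c1 hμ1
  obtain ⟨ε2, hε2, hc2⟩ := h.c2 hμ2
  have hp1 := hE _ hε1
  have hp2 := hE _ hε2
  obtain ⟨a1, b1⟩ := pow_bounds hp1 hc1
  obtain ⟨a2, b2⟩ := pow_bounds hp2 hc2
  obtain ⟨f1, f2, f3, f4, f5, f6, f7⟩ := h.p1.facts hn
  obtain ⟨g1, g2, g3, g4, g5, g6, g7⟩ := h.p2.facts hn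
  have μ1 := h.p1.mu_pos
  have μ2 := h.p2.mu_pos
  set u := RP.mu X1 o1 m1 with hu
  set w := RP.mu X2 o2 m2 with hw
  have ho1 := h.p1.pos_o
  have ho2 := h.p2.pos_o
  have S2nn : ∀ i, 0 ≤ S2 i := fun i => le_trans (by positivity) (g2 i)
  by_cases hm : m1 = m2
  · -- the same smallest coordinate
    have hom : o1 ≠ m1 := h.p1.2.2.1
    have hom2 : o1 ≠ m2 := by rw [← hm]; exact hom
    have k1 := h.bd (i := m1) (j := o1) (A1 := u ^ n / n) (A2 := w ^ n / n) (B1 := 2) (B2 := 2)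
      (by positivity) (by positivity) (by norm_num) (S2nn _) (f2 _) (g2 _) (f1 _) (g1 _)
    have k2 := h.bd (i := o1) (j := m1) (A1 := δ) (A2 := δ) (B1 := 2 * u ^ n / n)
      (B2 := 2 * w ^ n / n) hδ.le hδ.le (by positivity) (S2nn _)
      ((mul_le_mul_of_nonneg_right (by linarith) ho1.le).trans (f3 _ hom))
      ((mul_le_mul_of_nonneg_right (by linarith) ho2.le).trans (g3 _ hom2)) f4
      (by rw [hm]; exact g4)
    have hinv := ratio_inv_pow (n := n) (h.r1 m1) (h.r1 o1)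
    set x : ℝ := ((r m1 : ℝ) / r o1) ^ n with hx
    set y : ℝ := ((r o1 : ℝ) / r m1) ^ n with hy
    have hy0 : 0 ≤ y := by positivity
    have hq := mem_Q2 hε1 hε2 (mem_ratios (h.r1 o1) (h.r2 o1) (h.r1 m1) (h.r2 m1))
    refine e1 _ hq ?_ ?_
    · rw [mul_pow, mul_pow, ← hy]
      have k3 : u ^ n * w ^ n ≤ 4 * x * (n : ℝ) ^ 2 := by
        have : u ^ n / n * (w ^ n / n) = u ^ n * w ^ n / (n : ℝ) ^ 2 := by
          field_simp
        rw [this, div_le_iff₀ (by positivity)] at k1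
        linarith
      have k4 : (9 / 10 * ε1 ^ n) * (9 / 10 * ε2 ^ n) ≤ u ^ n * w ^ n :=
        mul_le_mul a1 a2 (by positivity) (by positivity)
      have k5 := mul_le_mul_of_nonneg_right (k4.trans k3) hy0
      have k6 : 4 * x * (n : ℝ) ^ 2 * y = 4 * (n : ℝ) ^ 2 := by
        linear_combination (4 * (n : ℝ) ^ 2) * hinv
      rw [k6] at k5
      have k7 : 9 / 10 * ε1 ^ n * (9 / 10 * ε2 ^ n) * y = 81 / 100 * (ε1 ^ n * ε2 ^ n * y) := by ring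
      rw [k7] at k5
      linarith
    · rw [mul_pow, mul_pow, ← hy]
      have k3 : δ ^ 2 * (n : ℝ) ^ 2 ≤ 4 * (u ^ n * w ^ n) * y := by
        have : 2 * u ^ n / n * (2 * w ^ n / n) * y = 4 * (u ^ n * w ^ n) * y / (n : ℝ) ^ 2 := by
          field_simp
          ring
        rw [this, le_div_iff₀ (by positivity)] at k2
        linarith
      have k4 : u ^ n * w ^ n ≤ (11 / 10 * ε1 ^ n) * (11 / 10 * ε2 ^ n) :=
        mul_le_mul b1 b2 (by positivity) (by positivity)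
      have k5 : 4 * (u ^ n * w ^ n) * y ≤ 4 * ((11 / 10 * ε1 ^ n) * (11 / 10 * ε2 ^ n)) * y := by
        gcongr
      rw [div_mul_eq_mul_div, le_div_iff₀ (by positivity)]
      have k6 : 0 ≤ ε1 ^ n * ε2 ^ n * y := by positivity
      have k7 : 4 * ((11 / 10 * ε1 ^ n) * (11 / 10 * ε2 ^ n)) * y =
          484 / 100 * (ε1 ^ n * ε2 ^ n * y) := by ring
      rw [k7] at k5
      linarith
  · -- different smallest coordinates
    obtain ⟨z, hz1, hz2⟩ := third m1 m2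
    have k1 := h.bd (i := m1) (j := z) (A1 := u ^ n / n) (A2 := δ) (B1 := 2) (B2 := 2)
      (by positivity) hδ.le (by norm_num) (S2nn _) (f2 _)
      ((mul_le_mul_of_nonneg_right (by linarith) ho2.le).trans (g3 _ hm)) (f1 _) (g1 _)
    have k2 := h.bd (i := z) (j := m1) (A1 := δ) (A2 := δ) (B1 := 2 * u ^ n / n)
      (B2 := 2) hδ.le hδ.le (by positivity) (S2nn _)
      ((mul_le_mul_of_nonneg_right (by linarith) ho1.le).trans (f3 _ hz1))
      ((mul_le_mul_of_nonneg_right (by linarith) ho2.le).trans (g3 _ hz2)) f4 (g1 _)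
    have hinv := ratio_inv_pow (n := n) (h.r1 m1) (h.r1 z)
    set x : ℝ := ((r m1 : ℝ) / r z) ^ n with hx
    set y : ℝ := ((r z : ℝ) / r m1) ^ n with hy
    have hy0 : 0 ≤ y := by positivity
    have hq := mem_Q1 hε1 (mem_ratios (h.r1 z) (h.r2 z) (h.r1 m1) (h.r2 m1))
    refine e2 _ hq ?_ ?_
    · rw [mul_pow, ← hy, pow_one]
      have k3 : u ^ n * δ ≤ 4 * x * (n : ℝ) := by
        have : u ^ n / n * δ = u ^ n * δ / (n : ℝ) := by
          field_simp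
        rw [this, div_le_iff₀ (by positivity)] at k1
        linarith
      have k4 : (9 / 10 * ε1 ^ n) * δ ≤ u ^ n * δ := mul_le_mul_of_nonneg_right a1 hδ.le
      have k5 := mul_le_mul_of_nonneg_right (k4.trans k3) hy0
      have k6 : 4 * x * (n : ℝ) * y = 4 * (n : ℝ) := by
        linear_combination (4 * (n : ℝ)) * hinv
      rw [k6] at k5
      have k7 : 9 / 10 * ε1 ^ n * δ * y = 9 / 10 * δ * (ε1 ^ n * y) := by ring
      rw [k7] at k5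
      linarith
    · rw [mul_pow, ← hy, pow_one]
      have k3 : δ ^ 2 * (n : ℝ) ≤ 4 * u ^ n * y := by
        have : 2 * u ^ n / n * 2 * y = 4 * u ^ n * y / (n : ℝ) := by
          field_simp
          ring
        rw [this, le_div_iff₀ (by positivity)] at k2
        linarith
      have k5 : 4 * u ^ n * y ≤ 4 * (11 / 10 * ε1 ^ n) * y := by
        gcongr
      rw [div_mul_eq_mul_div, le_div_iff₀ (by positivity)]
      have k6 : 0 ≤ ε1 ^ n * y := by positivity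
      have k7 : 4 * (11 / 10 * ε1 ^ n) * y = 44 / 10 * (ε1 ^ n * y) := by ring
      rw [k7] at k5
      linarith

/-- the first place is not near the corner, the second is -/
lemma case_nc {E : Finset ℝ} (hE : ∀ e ∈ E, 0 < e) (Γ : ℕ) {δ : ℝ} (hδ : 0 < δ)
    (hδ1 : δ ≤ 1 / 10)
    (hQ : ∀ q ∈ Q1 E Γ, (q < 1 → q < 1 - δ) ∧ (1 < q → 1 < q * (1 - δ) ^ 2)) :
    ∀ᶠ n : ℕ in atTop, ∀ (X1 S1 : Fin 3 → ℝ) (o1 l1 m1 : Fin 3) (X2 S2 : Fin 3 → ℝ)
      (o2 l2 m2 : Fin 3) (r : Fin 3 → ℕ) (κ : ℝ), Two n Γ E δ X1 S1 o1 l1 m1 X2 S2 o2 l2 m2 r κ →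
      RP.mu X1 o1 m1 ≤ 1 - δ → 1 - δ < RP.mu X2 o2 m2 → False := by
  have hδ' : 0 < 1 - δ := by linarith
  have ev1 : ∀ᶠ n : ℕ in atTop, ∀ q ∈ Q1 E Γ, 1 < q →
      9 / 10 * (q * (1 - δ)) ^ n ≤ 4 * (n : ℝ) ^ 2 → False := by
    refine (Filter.eventually_all_finset (Q1 E Γ)).2 fun q hq => ?_
    by_cases h1 : 1 < q
    · have h2 := (hQ q hq).2 h1
      have h3 : 1 < q * (1 - δ) := by
        calc (1 : ℝ) < q * (1 - δ) ^ 2 := h2
          _ = q * (1 - δ) * (1 - δ) := by ring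
          _ ≤ q * (1 - δ) * 1 := by
            gcongr
            linarith
          _ = _ := mul_one _
      filter_upwards [grow h3 (by norm_num : (0 : ℝ) < 9 / 10) (B := 4) 2] with n hn _ h4
      exact hn h4
    · exact Eventually.of_forall fun n h2 => absurd h2 h1
  have ev2 : ∀ᶠ n : ℕ in atTop, ∀ q ∈ Q1 E Γ, q < 1 →
      δ * ((1 - δ) / q) ^ n ≤ 5 * (n : ℝ) ^ 0 → False := by
    refine (Filter.eventually_all_finset (Q1 E Γ)).2 fun q hq => ?_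
    by_cases h1 : q < 1
    · have h2 := (hQ q hq).1 h1
      have h3 : 1 < (1 - δ) / q := by
        rw [one_lt_div (Q1_pos hE hq)]
        exact h2
      filter_upwards [grow h3 hδ (B := 5) 0] with n hn _ h4
      exact hn h4
    · exact Eventually.of_forall fun n h2 => absurd h2 h1
  filter_upwards [ev1, ev2, eventually_ge_atTop 1, eventually_gt_atTop ⌈5 / δ⌉₊] with n e1 e2 hn hn2
    X1 S1 o1 l1 m1 X2 S2 o2 l2 m2 r κ h hμ1 hμ2
  have hnR : (0 : ℝ) < n := by exact_mod_cast hn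
  have hn3 : 5 / δ < n := Nat.lt_of_ceil_lt hn2
  obtain ⟨ε1, hε1, hc1⟩ := h.c1 hμ1
  have hp1 := hE _ hε1
  obtain ⟨a1, b1⟩ := pow_bounds hp1 hc1
  obtain ⟨f1, f2, f3, f4, f5, f6, f7⟩ := h.p1.facts hn
  obtain ⟨g1, g2, g3, g4, g5, g6, g7⟩ := h.p2.facts hn
  have μ1 := h.p1.mu_pos
  have μ2 := h.p2.mu_pos
  set u := RP.mu X1 o1 m1 with hu
  set w := RP.mu X2 o2 m2 with hw
  have ho1 := h.p1.pos_o
  have ho2 := h.p2.pos_o
  have S2nn : ∀ i, 0 ≤ S2 i := fun i => le_trans (by positivity) (g2 i)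
  have hwn : (1 - δ) ^ n ≤ w ^ n := pow_le_pow_left₀ hδ'.le hμ2.le n
  -- the ratios are equal to one
  have hq1 : ∀ y, y ≠ m1 → ε1 * ((r y : ℝ) / r m1) = 1 := by
    intro y hy
    have hmem := mem_Q1 hε1 (mem_ratios (h.r1 y) (h.r2 y) (h.r1 m1) (h.r2 m1))
    have hinv := ratio_inv_pow (n := n) (h.r1 m1) (h.r1 y)
    have hz0 : 0 ≤ ((r y : ℝ) / r m1) ^ n := by positivity
    rcases lt_trichotomy (ε1 * ((r y : ℝ) / r m1)) 1 with h1 | h1 | h1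
    · exfalso
      refine e2 _ hmem h1 ?_
      have k2 := h.bd (i := y) (j := m1) (A1 := δ) (A2 := w ^ n / n) (B1 := 2 * u ^ n / n)
        (B2 := 2) hδ.le (by positivity) (by positivity) (S2nn _)
        ((mul_le_mul_of_nonneg_right (by linarith) ho1.le).trans (f3 _ hy)) (g2 _) f4 (g1 _)
      have k3 : δ * w ^ n ≤ 4 * u ^ n * ((r y : ℝ) / r m1) ^ n := by
        have e5 : δ * (w ^ n / n) = δ * w ^ n / n := by ring
        have e6 : 2 * u ^ n / n * 2 * ((r y : ℝ) / r m1) ^ n =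
            4 * u ^ n * ((r y : ℝ) / r m1) ^ n / n := by ring
        rw [e5, e6] at k2
        exact (div_le_div_iff_of_pos_right hnR).1 k2
      have k4 : δ * (1 - δ) ^ n ≤ 5 * (ε1 * ((r y : ℝ) / r m1)) ^ n := by
        rw [mul_pow]
        calc δ * (1 - δ) ^ n ≤ δ * w ^ n := by gcongr
          _ ≤ 4 * u ^ n * ((r y : ℝ) / r m1) ^ n := k3
          _ ≤ 4 * (11 / 10 * ε1 ^ n) * ((r y : ℝ) / r m1) ^ n := by gcongr
          _ = 44 / 10 * (ε1 ^ n * ((r y : ℝ) / r m1) ^ n) := by ring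
          _ ≤ 5 * (ε1 ^ n * ((r y : ℝ) / r m1) ^ n) := by
            have : 0 ≤ ε1 ^ n * ((r y : ℝ) / r m1) ^ n := by positivity
            linarith
      have hqp : 0 < (ε1 * ((r y : ℝ) / r m1)) ^ n := by
        have := Q1_pos hE hmem
        positivity
      rw [pow_zero, mul_one, div_pow, mul_div_assoc', div_le_iff₀ hqp]
      exact k4
    · exact h1
    · exfalso
      refine e1 _ hmem h1 ?_
      have k1 := h.bd (i := m1) (j := y) (A1 := u ^ n / n) (A2 := w ^ n / n) (B1 := 2) (B2 := 2)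
        (by positivity) (by positivity) (by norm_num) (S2nn _) (f2 _) (g2 _) (f1 _) (g1 _)
      set x : ℝ := ((r m1 : ℝ) / r y) ^ n with hx
      set z : ℝ := ((r y : ℝ) / r m1) ^ n with hz
      have k3 : u ^ n * w ^ n ≤ 4 * x * (n : ℝ) ^ 2 := by
        have : u ^ n / n * (w ^ n / n) = u ^ n * w ^ n / (n : ℝ) ^ 2 := by
          field_simp
        rw [this, div_le_iff₀ (by positivity)] at k1
        linarith
      have k4 : (9 / 10 * ε1 ^ n) * (1 - δ) ^ n ≤ u ^ n * w ^ n :=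
        mul_le_mul a1 hwn (by positivity) (by positivity)
      have k5 := mul_le_mul_of_nonneg_right (k4.trans k3) hz0
      have k6 : 4 * x * (n : ℝ) ^ 2 * z = 4 * (n : ℝ) ^ 2 := by
        linear_combination (4 * (n : ℝ) ^ 2) * hinv
      rw [k6] at k5
      rw [mul_pow, mul_pow, ← hz]
      linarith
  have hq2 : ∀ y, y ≠ m1 → ((r y : ℝ) / r m1) ^ n * ε1 ^ n = 1 := by
    intro y hy
    rw [← mul_pow, mul_comm, hq1 y hy, one_pow]
  by_cases hom : o2 = m1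
  · -- compare with the smallest coordinate at the second place
    have hm2 : m2 ≠ m1 := by
      rw [← hom]
      exact h.p2.2.2.1.symm
    have k1 := h.bd (i := m1) (j := m2) (A1 := u ^ n / n) (A2 := 2 * w) (B1 := 2)
      (B2 := 7 / 10 / n) (by positivity) (by positivity) (by norm_num) (S2nn _) (f2 _)
      (by rw [← hom]; exact g7) (f1 _) g5
    have hinv := ratio_inv_pow (n := n) (h.r1 m1) (h.r1 m2)
    have h2 := hq2 m2 hm2
    set x : ℝ := ((r m1 : ℝ) / r m2) ^ n with hx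
    set z : ℝ := ((r m2 : ℝ) / r m1) ^ n with hz
    have hz0 : 0 ≤ z := by positivity
    have k3 : u ^ n * (2 * w) ≤ 14 / 10 * x := by
      have e5 : u ^ n / n * (2 * w) = u ^ n * (2 * w) / n := by ring
      have e6 : 2 * (7 / 10 / (n : ℝ)) * x = 14 / 10 * x / n := by ring
      rw [e5, e6] at k1
      exact (div_le_div_iff_of_pos_right hnR).1 k1
    have k4 : (9 / 10 * ε1 ^ n) * (2 * (9 / 10)) ≤ u ^ n * (2 * w) := by
      apply mul_le_mul a1 (by linarith) (by norm_num) (by positivity)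
    have k5 := mul_le_mul_of_nonneg_right (k4.trans k3) hz0
    have k6 : 14 / 10 * x * z = 14 / 10 := by linear_combination (14 / 10) * hinv
    have k7 : 9 / 10 * ε1 ^ n * (2 * (9 / 10)) * z = 162 / 100 := by
      linear_combination (162 / 100) * h2
    rw [k6, k7] at k5
    norm_num at k5
  · -- compare with the largest coordinate at the second place
    have k2 := h.bd (i := o2) (j := m1) (A1 := δ) (A2 := 1) (B1 := 2 * u ^ n / n)
        (B2 := 2) hδ.le (by positivity) (by positivity) (S2nn _)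
        ((mul_le_mul_of_nonneg_right (by linarith) ho1.le).trans (f3 _ hom))
        (by rw [one_mul]; exact g6) f4 (g1 _)
    have h2 := hq2 o2 hom
    have k3 : δ * n ≤ 4 * u ^ n * ((r o2 : ℝ) / r m1) ^ n := by
      have e6 : 2 * u ^ n / n * 2 * ((r o2 : ℝ) / r m1) ^ n =
          4 * u ^ n * ((r o2 : ℝ) / r m1) ^ n / n := by ring
      rw [mul_one, e6, le_div_iff₀ hnR] at k2
      exact k2
    have k4 : 4 * u ^ n * ((r o2 : ℝ) / r m1) ^ n ≤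
        4 * (11 / 10 * ε1 ^ n) * ((r o2 : ℝ) / r m1) ^ n := by gcongr
    have k5 : 4 * (11 / 10 * ε1 ^ n) * ((r o2 : ℝ) / r m1) ^ n = 44 / 10 := by
      linear_combination (44 / 10) * h2
    rw [div_lt_iff₀ hδ] at hn3
    linarith

/-- both places are near a corner -/
lemma case_cc {E : Finset ℝ} (Γ : ℕ) {δ : ℝ} (hδ : 0 < δ) (hδ1 : δ ≤ 1 / 10)
    (hQ : ∀ q ∈ ratios Γ, (1 < q → 1 < q * (1 - δ) ^ 2)) :
    ∀ᶠ n : ℕ in atTop, ∀ (X1 S1 : Fin 3 → ℝ) (o1 l1 m1 : Fin 3) (X2 S2 : Fin 3 → ℝ)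
      (o2 l2 m2 : Fin 3) (r : Fin 3 → ℕ) (κ : ℝ), Two n Γ E δ X1 S1 o1 l1 m1 X2 S2 o2 l2 m2 r κ →
      1 - δ < RP.mu X1 o1 m1 → 1 - δ < RP.mu X2 o2 m2 → ∀ i j, r j ≤ r i := by
  have hδ' : 0 < 1 - δ := by linarith
  have ev1 : ∀ᶠ n : ℕ in atTop, ∀ q ∈ ratios Γ, 1 < q →
      1 * (q * (1 - δ) ^ 2) ^ n ≤ 4 * (n : ℝ) ^ 2 → False := by
    refine (Filter.eventually_all_finset (ratios Γ)).2 fun q hq => ?_
    by_cases h1 : 1 < q
    · filter_upwards [grow (hQ q hq h1) (by norm_num : (0 : ℝ) < 1) (B := 4) 2] with n hn _ h4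
      exact hn h4
    · exact Eventually.of_forall fun n h2 => absurd h2 h1
  filter_upwards [ev1, eventually_ge_atTop 1] with n e1 hn
    X1 S1 o1 l1 m1 X2 S2 o2 l2 m2 r κ h hμ1 hμ2 i j
  have hnR : (0 : ℝ) < n := by exact_mod_cast hn
  obtain ⟨f1, f2, f3, f4, f5, f6, f7⟩ := h.p1.facts hn
  obtain ⟨g1, g2, g3, g4, g5, g6, g7⟩ := h.p2.facts hn
  have μ1 := h.p1.mu_pos
  have μ2 := h.p2.mu_pos
  set u := RP.mu X1 o1 m1 with hu
  set w := RP.mu X2 o2 m2 with hw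
  have ho1 := h.p1.pos_o
  have ho2 := h.p2.pos_o
  have S2nn : ∀ i, 0 ≤ S2 i := fun i => le_trans (by positivity) (g2 i)
  have hun : (1 - δ) ^ n ≤ u ^ n := pow_le_pow_left₀ hδ'.le hμ1.le n
  have hwn : (1 - δ) ^ n ≤ w ^ n := pow_le_pow_left₀ hδ'.le hμ2.le n
  by_contra hcon
  push Not at hcon
  have hmem := mem_ratios (h.r1 j) (h.r2 j) (h.r1 i) (h.r2 i)
  have hiR : (0 : ℝ) < r i := by exact_mod_cast h.r1 i
  refine e1 _ hmem ?_ ?_
  · rw [one_lt_div hiR]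
    exact_mod_cast hcon
  · have k1 := h.bd (i := i) (j := j) (A1 := u ^ n / n) (A2 := w ^ n / n) (B1 := 2) (B2 := 2)
      (by positivity) (by positivity) (by norm_num) (S2nn _) (f2 _) (g2 _) (f1 _) (g1 _)
    have hinv := ratio_inv_pow (n := n) (h.r1 i) (h.r1 j)
    set x : ℝ := ((r i : ℝ) / r j) ^ n with hx
    rw [mul_pow]
    set z : ℝ := ((r j : ℝ) / r i) ^ n with hz
    have hz0 : 0 ≤ z := by positivity
    have k3 : u ^ n * w ^ n ≤ 4 * x * (n : ℝ) ^ 2 := by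
      have : u ^ n / n * (w ^ n / n) = u ^ n * w ^ n / (n : ℝ) ^ 2 := by
        field_simp
      rw [this, div_le_iff₀ (by positivity)] at k1
      linarith
    have k4 : (1 - δ) ^ n * (1 - δ) ^ n ≤ u ^ n * w ^ n :=
      mul_le_mul hun hwn (by positivity) (by positivity)
    have k5 := mul_le_mul_of_nonneg_right (k4.trans k3) hz0
    have k6 : 4 * x * (n : ℝ) ^ 2 * z = 4 * (n : ℝ) ^ 2 := by
      linear_combination (4 * (n : ℝ) ^ 2) * hinv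
    rw [k6] at k5
    have k7 : ((1 - δ) ^ 2) ^ n = (1 - δ) ^ n * (1 - δ) ^ n := by
      rw [← mul_pow, sq]
    rw [k7]
    linarith

/-- the real case -/
theorem real_case {E : Finset ℝ} (hE : ∀ e ∈ E, 0 < e) (Γ : ℕ) :
    ∃ δ : ℝ, 0 < δ ∧ δ ≤ 1 / 10 ∧
    ∀ᶠ n : ℕ in atTop, ∀ (X1 S1 : Fin 3 → ℝ) (o1 l1 m1 : Fin 3) (X2 S2 : Fin 3 → ℝ)
      (o2 l2 m2 : Fin 3) (r : Fin 3 → ℕ) (κ : ℝ), Two n Γ E δ X1 S1 o1 l1 m1 X2 S2 o2 l2 m2 r κ →
      ∀ i j, r i = r j := by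
  obtain ⟨δ, hδ, hδ1, hδ2⟩ := exists_delta (Q1 E Γ ∪ ratios Γ)
  refine ⟨δ, hδ, hδ1, ?_⟩
  filter_upwards [case_nn hE Γ hδ, case_nc hE Γ hδ hδ1
    (fun q hq => hδ2 q (Finset.mem_union_left _ hq)),
    case_cc (E := E) Γ hδ hδ1 (fun q hq => (hδ2 q (Finset.mem_union_right _ hq)).2)] with n c1 c2 c3
    X1 S1 o1 l1 m1 X2 S2 o2 l2 m2 r κ h i j
  rcases le_or_gt (RP.mu X1 o1 m1) (1 - δ) with h1 | h1
  · rcases le_or_gt (RP.mu X2 o2 m2) (1 - δ) with h2 | h2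
    · exact (c1 _ _ _ _ _ _ _ _ _ _ _ _ h h1 h2).elim
    · exact (c2 _ _ _ _ _ _ _ _ _ _ _ _ h h1 h2).elim
  · rcases le_or_gt (RP.mu X2 o2 m2) (1 - δ) with h2 | h2
    · exact (c2 _ _ _ _ _ _ _ _ _ _ _ _ h.symm h2 h1).elim
    · exact le_antisymm (c3 _ _ _ _ _ _ _ _ _ _ _ _ h h1 h2 j i)
        (c3 _ _ _ _ _ _ _ _ _ _ _ _ h h1 h2 i j)

end Pool.Agent.H577.UQ
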