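import Pool.Agent.H577.UQ.Global
import Pool.Agent.H577.UQ.Close

set_option autoImplicit false

/-! # Real solutions of Fermat's equation with odd exponent -/

namespace Pool.Agent.H577.UQ

/-- the absolute values `X` of the coordinates and `S` of the sums of two coordinates of a real
solution, where `o` is the largest, `l` the second and `m` the smallest coordinate -/
def RP (n : ℕ) (X S : Fin 3 → ℝ) (o l m : Fin 3) : Prop :=
  o ≠ l ∧ l ≠ m ∧ o ≠ m ∧ 0 < X m ∧ X m ≤ X l ∧ X l ≤ X o ∧ X o ^ n = X l ^ n + X m ^ n ∧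
    S o = X l + X m ∧ S l = X o - X m ∧ S m = X o - X l

lemma f3a : ∀ i : Fin 3, i + 1 + 1 = i + 2 := by decide
lemma f3b : ∀ i : Fin 3, i + 1 + 2 = i := by decide
lemma f3c : ∀ i : Fin 3, i + 2 + 1 = i := by decide
lemma f3d : ∀ i : Fin 3, i + 2 + 2 = i + 1 := by decide
lemma f3e : ∀ i : Fin 3, i ≠ i + 1 := by decide
lemma f3f : ∀ i : Fin 3, i ≠ i + 2 := by decide
lemma f3g : ∀ i : Fin 3, i + 1 ≠ i + 2 := by decide

lemma fin3_cases {o l m : Fin 3} (h1 : o ≠ l) (h2 : l ≠ m) (h3 : o ≠ m) (i : Fin 3) :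
    i = o ∨ i = l ∨ i = m := by
  revert o l m i
  decide

/-- two numbers with the same sign -/
lemma real_signs {n : ℕ} (hn : Odd n) {a b c : ℝ} (ha : a ≠ 0) (hb : b ≠ 0) (hc : c ≠ 0)
    (h : a ^ n + b ^ n + c ^ n = 0) (hab : 0 < a * b) :
    |c| ^ n = |a| ^ n + |b| ^ n ∧ |a + b| = |a| + |b| ∧ |b + c| = |c| - |b| ∧
      |c + a| = |c| - |a| ∧ |a| ≤ |c| ∧ |b| ≤ |c| := by
  have hn0 : n ≠ 0 := by
    rintro rfl
    exact absurd hn (by decide)
  wlog hap : 0 < a generalizing a b c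
  · have h1 := this (a := -a) (b := -b) (c := -c) (neg_ne_zero.2 ha) (neg_ne_zero.2 hb)
      (neg_ne_zero.2 hc) (by rw [hn.neg_pow, hn.neg_pow, hn.neg_pow]; linear_combination -h)
      (by simpa using hab) (by
        have : a < 0 := lt_of_le_of_ne (not_lt.1 hap) ha
        linarith)
    have e1 : -a + -b = -(a + b) := by ring
    have e2 : -b + -c = -(b + c) := by ring
    have e3 : -c + -a = -(c + a) := by ring
    rw [e1, e2, e3] at h1
    simpa only [abs_neg] using h1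
  have hbp : 0 < b := by
    by_contra h1
    have : a * b ≤ 0 := mul_nonpos_of_nonneg_of_nonpos hap.le (not_lt.1 h1)
    linarith
  have hcn : c < 0 := by
    by_contra h1
    have h2 : 0 ≤ c ^ n := pow_nonneg (not_lt.1 h1) n
    have h3 : 0 < a ^ n := by positivity
    have h4 : 0 < b ^ n := by positivity
    linarith
  have hc' : (-c) ^ n = a ^ n + b ^ n := by
    rw [hn.neg_pow]
    linear_combination -h
  have h1 : a ≤ -c := by
    apply le_of_pow_le_pow_left₀ hn0 (by linarith)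
    rw [hc']
    have : 0 < b ^ n := by positivity
    linarith
  have h2 : b ≤ -c := by
    apply le_of_pow_le_pow_left₀ hn0 (by linarith)
    rw [hc']
    have : 0 < a ^ n := by positivity
    linarith
  rw [abs_of_pos hap, abs_of_pos hbp, abs_of_neg hcn, abs_of_pos (by linarith : 0 < a + b),
    abs_of_nonpos (by linarith : b + c ≤ 0), abs_of_nonpos (by linarith : c + a ≤ 0)]
  exact ⟨hc', rfl, by ring, by ring, h1, h2⟩

/-- a real solution -/
theorem real_place {n : ℕ} (hn : Odd n) {t : Fin 3 → ℝ} (ht : ∀ i, t i ≠ 0)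
    (h : t 0 ^ n + t 1 ^ n + t 2 ^ n = 0) :
    ∃ o l m : Fin 3, RP n (fun i => |t i|) (fun i => |Sm t i|) o l m := by
  have hn0 : n ≠ 0 := by
    rintro rfl
    exact absurd hn (by decide)
  have key : ∀ i : Fin 3, 0 < t (i + 1) * t (i + 2) →
      ∃ o l m : Fin 3, RP n (fun i => |t i|) (fun i => |Sm t i|) o l m := by
    intro i hi
    have h1 : t (i + 1) ^ n + t (i + 2) ^ n + t i ^ n = 0 := by
      fin_cases i
      · change t 1 ^ n + t 2 ^ n + t 0 ^ n = 0
        linear_combination h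
      · change t 2 ^ n + t 0 ^ n + t 1 ^ n = 0
        linear_combination h
      · exact h
    obtain ⟨h2, h3, h4, h5, h6, h7⟩ := real_signs hn (ht _) (ht _) (ht i) h1 hi
    have e1 : i + 1 + 1 = i + 2 := f3a i
    have e2 : i + 1 + 2 = i := f3b i
    have e3 : i + 2 + 1 = i := f3c i
    have e4 : i + 2 + 2 = i + 1 := f3d i
    have n1 : i ≠ i + 1 := f3e i
    have n2 : i ≠ i + 2 := f3f i
    have n3 : i + 1 ≠ i + 2 := f3g i
    have s1 : |Sm t (i + 1)| = |t i| - |t (i + 2)| := by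
      unfold Sm
      rw [e1, e2]
      exact h4
    have s2 : |Sm t (i + 2)| = |t i| - |t (i + 1)| := by
      unfold Sm
      rw [e3, e4]
      exact h5
    rcases le_total |t (i + 1)| |t (i + 2)| with h8 | h8
    · refine ⟨i, i + 2, i + 1, n2, n3.symm, n1, abs_pos.2 (ht _), h8, h7, ?_, ?_, s2, s1⟩
      · change |t i| ^ n = |t (i + 2)| ^ n + |t (i + 1)| ^ n
        linear_combination h2
      · change |Sm t i| = |t (i + 2)| + |t (i + 1)|
        unfold Sm
        rw [h3]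
        ring
    · refine ⟨i, i + 1, i + 2, n1, n3, n2, abs_pos.2 (ht _), h8, h6, h2, h3, s1, s2⟩
  by_contra hcon
  have h1 : ∀ i, t (i + 1) * t (i + 2) ≤ 0 := by
    intro i
    by_contra h2
    exact hcon (key i (not_le.1 h2))
  have h2 : t 1 * t 2 < 0 := lt_of_le_of_ne (h1 0) (mul_ne_zero (ht _) (ht _))
  have h3 : t 2 * t 0 < 0 := lt_of_le_of_ne (h1 1) (mul_ne_zero (ht _) (ht _))
  have h4 : t 0 * t 1 < 0 := lt_of_le_of_ne (h1 2) (mul_ne_zero (ht _) (ht _))
  have h5 : 0 < (t 1 * t 2) * (t 2 * t 0) := mul_pos_of_neg_of_neg h2 h3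
  have h6 : (t 1 * t 2) * (t 2 * t 0) * (t 0 * t 1) = (t 0 * t 1 * t 2) ^ 2 := by ring
  have h7 : 0 ≤ (t 0 * t 1 * t 2) ^ 2 := sq_nonneg _
  have h8 : (t 1 * t 2) * (t 2 * t 0) * (t 0 * t 1) < 0 := mul_neg_of_pos_of_neg h5 h4
  linarith

namespace RP

variable {n : ℕ} {X S : Fin 3 → ℝ} {o l m : Fin 3}

lemma pos_o (h : RP n X S o l m) : 0 < X o := h.2.2.2.1.trans_le (h.2.2.2.2.1.trans h.2.2.2.2.2.1)

lemma pos_l (h : RP n X S o l m) : 0 < X l := h.2.2.2.1.trans_le h.2.2.2.2.1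

/-- the ratio of the smallest and the largest coordinate -/
noncomputable def mu (X : Fin 3 → ℝ) (o m : Fin 3) : ℝ := X m / X o

lemma mu_pos (h : RP n X S o l m) : 0 < mu X o m := div_pos h.2.2.2.1 h.pos_o

lemma mu_le_one (h : RP n X S o l m) : mu X o m ≤ 1 :=
  (div_le_one h.pos_o).2 (h.2.2.2.2.1.trans h.2.2.2.2.2.1)

/-- the second ratio -/
lemma lam (h : RP n X S o l m) : ∃ lam : ℝ, X l = lam * X o ∧ 0 < lam ∧ lam ≤ 1 ∧
    lam ^ n + mu X o m ^ n = 1 ∧ mu X o m ≤ lam := by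
  have ho := h.pos_o
  have hl := h.pos_l
  obtain ⟨h1, h2, h3, h4, h5, h6, h7, h8, h9, h10⟩ := h
  refine ⟨X l / X o, by field_simp, by positivity, (div_le_one ho).2 h6, ?_, ?_⟩
  · unfold mu
    rw [div_pow, div_pow, ← add_div, ← h7]
    exact div_self (by positivity)
  · unfold mu
    gcongr

lemma Xm (h : RP n X S o l m) : X m = mu X o m * X o := by
  unfold mu
  have := h.pos_o
  field_simp

lemma mu_pow_le (h : RP n X S o l m) : mu X o m ^ n ≤ 1 / 2 := by
  obtain ⟨lam, h1, h2, h3, h4, h5⟩ := h.lam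
  have h6 : mu X o m ^ n ≤ lam ^ n := pow_le_pow_left₀ h.mu_pos.le h5 n
  linarith

/-- `1 - mu` is not too small -/
lemma one_sub_mu (h : RP n X S o l m) (hn : 1 ≤ n) : 1 / (2 * n) ≤ 1 - mu X o m := by
  have hnR : (0 : ℝ) < n := by exact_mod_cast hn
  by_contra hcon
  push Not at hcon
  have h1 := h.mu_pow_le
  have h2 : 1 + (n : ℝ) * (mu X o m - 1) ≤ mu X o m ^ n := by
    have := one_add_mul_le_pow (a := mu X o m - 1) (by have := h.mu_pos; linarith) n
    simpa using this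
  have h3 : (n : ℝ) * (1 - mu X o m) < 1 / 2 := by
    calc (n : ℝ) * (1 - mu X o m) < n * (1 / (2 * n)) := mul_lt_mul_of_pos_left hcon hnR
      _ = 1 / 2 := by field_simp
  nlinarith

lemma one_sub_pow_le {x : ℝ} (hx : 0 ≤ x) (n : ℕ) : 1 - x ^ n ≤ n * (1 - x) := by
  have := one_add_mul_le_pow (a := x - 1) (by linarith) n
  have h2 : 1 + (n : ℝ) * (x - 1) ≤ x ^ n := by simpa using this
  nlinarith

/-- bounds for `1 - lam` -/
lemma one_sub_lam (hn : 1 ≤ n) {lam μ : ℝ} (hl : 0 < lam) (hl1 : lam ≤ 1)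
    (h : lam ^ n + μ ^ n = 1) (h2 : μ ^ n ≤ 1 / 2) :
    μ ^ n / n ≤ 1 - lam ∧ 1 - lam ≤ 2 * μ ^ n / n ∧ 1 - lam ≤ 7 / 10 / n := by
  have hnR : (0 : ℝ) < n := by exact_mod_cast hn
  refine ⟨?_, ?_, ?_⟩
  · rw [div_le_iff₀ hnR]
    have := one_sub_pow_le hl.le n
    linarith
  · rw [le_div_iff₀ hnR]
    -- `1 - lam ^ n ≥ n lam ^ n (1 - lam)`
    have h3 : (n : ℝ) * (1 - lam) * lam ^ n ≤ 1 - lam ^ n := by
      have h4 : 1 + (n : ℝ) * (lam⁻¹ - 1) ≤ lam⁻¹ ^ n := by
        have := one_add_mul_le_pow (a := lam⁻¹ - 1) (by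
          have : 0 < lam⁻¹ := by positivity
          linarith) n
        simpa using this
      have h5 : 1 - lam ≤ lam⁻¹ - 1 := by
        have h6 : lam + lam⁻¹ ≥ 2 := by
          have h7 : lam * lam⁻¹ = 1 := mul_inv_cancel₀ hl.ne'
          nlinarith [sq_nonneg (lam - lam⁻¹), sq_nonneg (lam + lam⁻¹ - 2), inv_pos.2 hl]
        linarith
      have h6 : 1 + (n : ℝ) * (1 - lam) ≤ lam⁻¹ ^ n := by
        have := mul_le_mul_of_nonneg_left h5 hnR.le
        linarith
      have h7 : (1 + (n : ℝ) * (1 - lam)) * lam ^ n ≤ 1 := by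
        calc _ ≤ lam⁻¹ ^ n * lam ^ n := by gcongr
          _ = 1 := by rw [← mul_pow, inv_mul_cancel₀ hl.ne', one_pow]
      linarith
    have h4 : (1 : ℝ) / 2 ≤ lam ^ n := by linarith
    have h5 : 0 ≤ (n : ℝ) * (1 - lam) := mul_nonneg hnR.le (by linarith)
    nlinarith
  · have h3 : (1 : ℝ) / 2 ≤ lam ^ n := by linarith
    have h4 : Real.log (1 / 2) ≤ n * Real.log lam := by
      rw [← Real.log_pow]
      exact Real.log_le_log (by norm_num) h3
    have h5 : Real.log lam ≤ lam - 1 := Real.log_le_sub_one_of_pos hl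
    have h6 : Real.log (1 / 2) = - Real.log 2 := by
      rw [one_div, Real.log_inv]
    rw [h6] at h4
    have h7 := Real.log_two_lt_d9
    rw [le_div_iff₀ hnR]
    nlinarith

/-- all bounds for the sums -/
lemma facts (h : RP n X S o l m) (hn : 1 ≤ n) :
    (∀ i, S i ≤ 2 * X o) ∧ (∀ i, mu X o m ^ n / n * X o ≤ S i) ∧
    (∀ i, i ≠ m → (1 - mu X o m) * X o ≤ S i) ∧ S m ≤ 2 * mu X o m ^ n / n * X o ∧
    S m ≤ 7 / 10 / n * X o ∧ X o ≤ S o ∧ 2 * mu X o m * X o ≤ S o := by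
  have hnR : (0 : ℝ) < n := by exact_mod_cast hn
  have ho := h.pos_o
  have hμ := h.mu_pos
  have hμ1 := h.mu_le_one
  have hμ2 := h.mu_pow_le
  have hXm := h.Xm
  obtain ⟨lam, h1, h2, h3, h4, h5⟩ := h.lam
  obtain ⟨b1, b2, b3⟩ := one_sub_lam hn h2 h3 h4 hμ2
  obtain ⟨g1, g2, g3, g4, g5, g6, g7, g8, g9, g10⟩ := h
  have e1 : S o = (lam + mu X o m) * X o := by rw [g8, hXm, h1]; ring
  have e2 : S l = (1 - mu X o m) * X o := by rw [g9, hXm]; ring
  have e3 : S m = (1 - lam) * X o := by rw [g10, h1]; ring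
  have e4 : 1 ≤ lam + mu X o m := by
    have h6 : lam ^ n ≤ lam := pow_le_of_le_one h2.le h3 (by omega)
    have h7 : mu X o m ^ n ≤ mu X o m := pow_le_of_le_one hμ.le hμ1 (by omega)
    linarith
  have e5 : X o ≤ S o := by
    rw [e1]
    nlinarith
  refine ⟨?_, ?_, ?_, ?_, ?_, e5, ?_⟩
  · intro i
    rcases fin3_cases g1 g2 g3 i with rfl | rfl | rfl
    · rw [e1]; nlinarith
    · rw [e2]; nlinarith
    · rw [e3]; nlinarith
  · have e6 : mu X o m ^ n / n ≤ 1 := by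
      rw [div_le_one hnR]
      have : (1 : ℝ) ≤ n := by exact_mod_cast hn
      linarith
    intro i
    rcases fin3_cases g1 g2 g3 i with rfl | rfl | rfl
    · calc _ ≤ 1 * X i := by gcongr
        _ ≤ _ := by rw [one_mul]; exact e5
    · rw [e2]
      apply mul_le_mul_of_nonneg_right _ ho.le
      linarith
    · rw [e3]
      exact mul_le_mul_of_nonneg_right b1 ho.le
  · intro i hi
    rcases fin3_cases g1 g2 g3 i with rfl | rfl | rfl
    · rw [e1]; nlinarith
    · rw [e2]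
    · exact absurd rfl hi
  · rw [e3]
    exact mul_le_mul_of_nonneg_right b2 ho.le
  · rw [e3]
    exact mul_le_mul_of_nonneg_right b3 ho.le
  · rw [e1]
    nlinarith

end RP

end Pool.Agent.H577.UQ
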